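import Pool.Agent.H171AT.ATI_Defs
import Pool.Agent.H171AT.ATI_RRe

set_option autoImplicit false
open MeasureTheory


namespace ATI.LTa
open ATI
open ATI.RRe (rr_equiv)




/-- same orbit of `H × W` -/
def orb {Ω : Type} (H W : Type) [Group H] [Group W] [MulAction H Ω] [MulAction W Ω] (a b : Ω) : Prop :=
  ∃ (h : H) (w : W), h • w • a = b

theorem orb_step {Ω H W : Type} [Group H] [Group W] [MulAction H Ω] [MulAction W Ω]
    (comm : ∀ (h : H) (w : W) (ω : Ω), h • w • ω = w • h • ω) {x a b : Ω}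
    (h1 : orb H W x a) (h2 : orb H W x b) : orb H W a b := by
  obtain ⟨h, w, hw⟩ := h1
  obtain ⟨h', w', hw'⟩ := h2
  refine ⟨h' * h⁻¹, w' * w⁻¹, ?_⟩
  rw [← hw, ← hw', mul_smul, mul_smul, comm h w x, inv_smul_smul, ← comm h w' x, inv_smul_smul]

theorem orb_trans' {Ω H W : Type} [Group H] [Group W] [MulAction H Ω] [MulAction W Ω]
    (comm : ∀ (h : H) (w : W) (ω : Ω), h • w • ω = w • h • ω) {x a b : Ω}
    (h1 : orb H W x a) (h2 : orb H W a b) : orb H W x b := by
  obtain ⟨h, w, hw⟩ := h1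
  obtain ⟨h', w', hw'⟩ := h2
  refine ⟨h' * h, w' * w, ?_⟩
  rw [← hw', ← hw, mul_smul, mul_smul, comm h w' (w • x)]

theorem orb_symm' {Ω H W : Type} [Group H] [Group W] [MulAction H Ω] [MulAction W Ω]
    (comm : ∀ (h : H) (w : W) (ω : Ω), h • w • ω = w • h • ω) {a b : Ω}
    (h1 : orb H W a b) : orb H W b a :=
  orb_step comm h1 ⟨1, 1, by rw [one_smul, one_smul]⟩

theorem q_inj {Ω X₀ H W : Type} [MeasurableSpace Ω] [MeasurableSpace X₀] [Group H] [Group W]
    [MulAction H Ω] [MulAction W Ω] [MulAction W X₀] {M : Measure Ω} {q : Ω → X₀}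
    {Z D : Set Ω} {E T : ℕ → Set (X₀ × X₀)} (d : Data Ω X₀ H W M q Z D E T) {a b : Ω}
    (ha : a ∈ D) (hb : b ∈ D) (hab : orb H W a b) (hq : q a = q b) : a = b := by
  obtain ⟨h, w, hw⟩ := hab
  have h1 : w • q a = q a := by
    rw [← d.qW, ← d.qH h, hw, hq]
  have h2 := d.freeW w _ h1
  subst h2
  rw [one_smul] at hw
  obtain ⟨k, hk, hku⟩ := d.domD a
  have h3 : h = k := hku h (by show h • a ∈ D; rw [hw]; exact hb)
  have h4 : (1 : H) = k := hku 1 (by show (1 : H) • a ∈ D; rw [one_smul]; exact ha)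
  rw [← hw, h3, ← h4, one_smul]

/-- one oriented edge of the lifted graph -/
theorem lt_case {Ω X₀ H W : Type} [MeasurableSpace Ω] [MeasurableSpace X₀] [Group H] [Group W]
    [MulAction H Ω] [MulAction W Ω] [MulAction W X₀] {M : Measure Ω} {q : Ω → X₀}
    {Z D : Set Ω} {E T : ℕ → Set (X₀ × X₀)} (d : Data Ω X₀ H W M q Z D E T) {n : ℕ} {a b : Ω}
    (h : (gr (LT H W q D (T n))).Adj a b) :
    orb H W a b ∧ ((a ∈ D ∧ b ∈ D ∧ (gr (T n)).Adj (q a) (q b)) ∨ q a = q b) := by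
  rw [SimpleGraph.fromRel_adj] at h
  obtain ⟨hne, h | h⟩ := h
  · rcases h with ⟨ha, hb, hT, ho⟩ | ⟨ha, hb, k, hk⟩
    · refine ⟨ho, Or.inl ⟨ha, hb, ?_⟩⟩
      rw [SimpleGraph.fromRel_adj]
      exact ⟨fun hq => hne (q_inj d ha hb ho hq), Or.inl hT⟩
    · refine ⟨⟨k, 1, by rw [one_smul]; exact hk⟩, Or.inr ?_⟩
      rw [← d.qH k a]
      exact congrArg q hk
  · rcases h with ⟨hb, ha, hT, ho⟩ | ⟨hb, ha, k, hk⟩
    · have ho' : orb H W a b := orb_symm' d.comm ho
      refine ⟨ho', Or.inl ⟨ha, hb, ?_⟩⟩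
      rw [SimpleGraph.fromRel_adj]
      exact ⟨fun hq => hne (q_inj d ha hb ho' hq), Or.inr hT⟩
    · refine ⟨orb_symm' d.comm ⟨k, 1, by rw [one_smul]; exact hk⟩, Or.inr ?_⟩
      rw [← d.qH k b]
      exact (congrArg q hk).symm

/-- the only neighbour of a point outside `D` -/
theorem leaf {Ω X₀ H W : Type} [MeasurableSpace Ω] [MeasurableSpace X₀] [Group H] [Group W]
    [MulAction H Ω] [MulAction W Ω] [MulAction W X₀] {M : Measure Ω} {q : Ω → X₀}
    {Z D : Set Ω} {E T : ℕ → Set (X₀ × X₀)} (d : Data Ω X₀ H W M q Z D E T) {n : ℕ} {a b c : Ω}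
    (ha : a ∉ D) (hb : (gr (LT H W q D (T n))).Adj a b) (hc : (gr (LT H W q D (T n))).Adj a c) :
    b = c := by
  have key : ∀ z, (gr (LT H W q D (T n))).Adj a z → z ∈ D ∧ ∃ h : H, h • a = z := by
    intro z hz
    rw [SimpleGraph.fromRel_adj] at hz
    obtain ⟨-, h | h⟩ := hz
    · rcases h with ⟨ha', _⟩ | ⟨_, hb, hk⟩
      · exact absurd ha' ha
      · exact ⟨hb, hk⟩
    · rcases h with ⟨_, ha', _⟩ | ⟨_, ha', _⟩
      · exact absurd ha' ha
      · exact absurd ha' ha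
  obtain ⟨hbD, h1, hh1⟩ := key b hb
  obtain ⟨hcD, h2, hh2⟩ := key c hc
  obtain ⟨k, hk, hku⟩ := d.domD a
  have e1 : h1 = k := hku h1 (by show h1 • a ∈ D; rw [hh1]; exact hbD)
  have e2 : h2 = k := hku h2 (by show h2 • a ∈ D; rw [hh2]; exact hcD)
  rw [← hh1, ← hh2, e1, e2]

theorem not_reach_leaf {Ω X₀ H W : Type} [MeasurableSpace Ω] [MeasurableSpace X₀] [Group H] [Group W]
    [MulAction H Ω] [MulAction W Ω] [MulAction W X₀] {M : Measure Ω} {q : Ω → X₀}
    {Z D : Set Ω} {E T : ℕ → Set (X₀ × X₀)} (d : Data Ω X₀ H W M q Z D E T) {n : ℕ} {a b : Ω}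
    (ha : a ∉ D) (hab : (gr (LT H W q D (T n))).Adj a b) :
    ¬ ((gr (LT H W q D (T n))).deleteEdges {s(a, b)}).Reachable a b := by
  intro hr
  rw [SimpleGraph.reachable_iff_reflTransGen] at hr
  rcases Relation.ReflTransGen.cases_head hr with h | ⟨c, hc, _⟩
  · exact hab.ne h
  · rw [SimpleGraph.deleteEdges_adj] at hc
    apply hc.2
    rw [leaf d ha hc.1 hab]
    rfl

/-! ## TARGET (prove this) -/

theorem lt_acyclic {Ω X₀ H W : Type} [MeasurableSpace Ω] [MeasurableSpace X₀] [Group H] [Group W]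
    [MulAction H Ω] [MulAction W Ω] [MulAction W X₀] {M : Measure Ω} {q : Ω → X₀}
    {Z D : Set Ω} {E T : ℕ → Set (X₀ × X₀)} (d : Data Ω X₀ H W M q Z D E T) (n : ℕ) :
    (gr (LT H W q D (T n))).IsAcyclic := by
  rw [SimpleGraph.isAcyclic_iff_forall_adj_isBridge]
  intro x y hxy
  rw [SimpleGraph.isBridge_iff]
  by_cases hx : x ∈ D
  swap
  · exact not_reach_leaf d hx hxy
  by_cases hy : y ∈ D
  swap
  · intro hr
    apply not_reach_leaf d hy hxy.symm
    rw [Sym2.eq_swap]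
    exact hr.symm
  obtain ⟨horb, hcase⟩ := lt_case d hxy
  have hadj : (gr (T n)).Adj (q x) (q y) := by
    rcases hcase with ⟨_, _, h⟩ | h
    · exact h
    · exact absurd (q_inj d hx hy horb h) hxy.ne
  have hbr := SimpleGraph.isBridge_iff.1
    ((SimpleGraph.isAcyclic_iff_forall_adj_isBridge.1 (d.tree n).acyc) hadj)
  intro hr
  apply hbr
  have key : ∀ u, Relation.ReflTransGen
      ((gr (LT H W q D (T n))).deleteEdges {s(x, y)}).Adj x u →
      orb H W x u ∧ ((gr (T n)).deleteEdges {s(q x, q y)}).Reachable (q x) (q u) := by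
    intro u hu
    induction hu with
    | refl => exact ⟨⟨1, 1, by rw [one_smul, one_smul]⟩, SimpleGraph.Reachable.refl _⟩
    | tail _ hab ih =>
      rename_i a b _
      obtain ⟨ho, hre⟩ := ih
      rw [SimpleGraph.deleteEdges_adj] at hab
      obtain ⟨hab, hne⟩ := hab
      obtain ⟨hoab, hc⟩ := lt_case d hab
      have hob : orb H W x b := orb_trans' d.comm ho hoab
      refine ⟨hob, ?_⟩
      rcases hc with ⟨haD, hbD, hT⟩ | hq
      · refine hre.trans (SimpleGraph.Adj.reachable ?_)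
        rw [SimpleGraph.deleteEdges_adj]
        refine ⟨hT, ?_⟩
        intro hmem
        apply hne
        have hmem' : s(q a, q b) = s(q x, q y) := hmem
        rw [Sym2.eq_iff] at hmem'
        show s(a, b) ∈ ({s(x, y)} : Set (Sym2 Ω))
        rw [Set.mem_singleton_iff, Sym2.eq_iff]
        rcases hmem' with ⟨h1, h2⟩ | ⟨h1, h2⟩
        · left
          exact ⟨(q_inj d hx haD ho h1.symm).symm,
            (q_inj d hy hbD (orb_step d.comm horb hob) h2.symm).symm⟩
        · right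
          exact ⟨(q_inj d hy haD (orb_step d.comm horb ho) h1.symm).symm,
            (q_inj d hx hbD hob h2.symm).symm⟩
      · rw [← hq]
        exact hre
  rw [SimpleGraph.reachable_iff_reflTransGen] at hr
  exact (key y hr).2

end ATI.LTa
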