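import Mathlib

set_option autoImplicit false

open MeasureTheory Set

namespace Pool.Agent.Helper634.AT

section graph

variable {Ω : Type*} (T : Ω → Ω → Prop) (Z : Set Ω) (par : Ω → Ω)

/-- x lies in the cell of z -/
def Cell (x z : Ω) : Prop := z ∈ Z ∧ ∃ n : ℕ, par^[n] x = z

theorem iter_fix (hpZ : ∀ z ∈ Z, par z = z) {z : Ω} (hz : z ∈ Z) (n : ℕ) : par^[n] z = z :=
  Function.iterate_fixed (hpZ z hz) n

theorem cell_uniq (hpZ : ∀ z ∈ Z, par z = z) {x z z' : Ω} (h : Cell Z par x z)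
    (h' : Cell Z par x z') : z = z' := by
  obtain ⟨hz, n, hn⟩ := h
  obtain ⟨hz', m, hm⟩ := h'
  rcases le_total n m with h | h
  · obtain ⟨k, rfl⟩ := Nat.exists_eq_add_of_le h
    rw [add_comm, Function.iterate_add_apply, hn, iter_fix Z par hpZ hz] at hm
    exact hm
  · obtain ⟨k, rfl⟩ := Nat.exists_eq_add_of_le h
    rw [add_comm, Function.iterate_add_apply, hm, iter_fix Z par hpZ hz'] at hn
    exact hn.symm

theorem cell_par {x z : Ω} (h : Cell Z par (par x) z) : Cell Z par x z := by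
  obtain ⟨hz, n, hn⟩ := h
  exact ⟨hz, n + 1, by rw [Function.iterate_succ_apply]; exact hn⟩

theorem reach_iter (H : SimpleGraph Ω) (hpar : ∀ a, par a ≠ a → H.Adj a (par a)) (x : Ω) (n : ℕ) :
    H.Reachable x (par^[n] x) := by
  induction n generalizing x with
  | zero => exact SimpleGraph.Reachable.refl _
  | succ n ih =>
    rw [Function.iterate_succ_apply]
    by_cases h : par x = x
    · rw [h]; exact ih x
    · exact (hpar x h).reachable.trans (ih (par x))

theorem reach_cell (H : SimpleGraph Ω) (hpar : ∀ a, par a ≠ a → H.Adj a (par a)) {x z : Ω}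
    (h : Cell Z par x z) : H.Reachable x z := by
  obtain ⟨_, n, hn⟩ := h
  rw [← hn]
  exact reach_iter par H hpar x n

theorem lift_reach (H : SimpleGraph Ω) (hpar : ∀ a, par a ≠ a → H.Adj a (par a))
    (G' : SimpleGraph Z)
    (hstep : ∀ w w' : Z, G'.Adj w w' → ∃ u v, H.Adj u v ∧ Cell Z par u w ∧ Cell Z par v w')
    {w w' : Z} (h : G'.Reachable w w') : H.Reachable (w : Ω) (w' : Ω) := by
  rw [SimpleGraph.reachable_iff_reflTransGen] at h
  induction h with
  | refl => exact SimpleGraph.Reachable.refl _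
  | tail _ hbc ih =>
    obtain ⟨u, v, huv, hu, hv⟩ := hstep _ _ hbc
    exact ih.trans (((reach_cell Z par H hpar hu).symm.trans huv.reachable).trans
      (reach_cell Z par H hpar hv))

theorem contract (hsym : ∀ x y, T x y → T y x)
    (hac : (SimpleGraph.fromRel T).IsAcyclic)
    (hpZ : ∀ z ∈ Z, par z = z) (hpT : ∀ x, par x ≠ x → T x (par x))
    (hDT : ∀ x y, T x y → (∃ z, Cell Z par x z) → ∃ z, Cell Z par y z)
    (T2 : Z → Z → Prop)
    (hT2 : ∀ z z' : Z, T2 z z' ↔ ∃ x y, T x y ∧ Cell Z par x z ∧ Cell Z par y z') :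
    (SimpleGraph.fromRel T2).IsAcyclic ∧
      ∀ z z' : Z, (SimpleGraph.fromRel T2).Reachable z z' ↔
        (SimpleGraph.fromRel T).Reachable (z : Ω) (z' : Ω) := by
  have hsym2 : ∀ z z' : Z, T2 z z' → T2 z' z := by
    intro z z' h
    obtain ⟨x, y, hxy, hx, hy⟩ := (hT2 z z').1 h
    exact (hT2 z' z).2 ⟨y, x, hsym x y hxy, hy, hx⟩
  have hcellZ : ∀ z : Z, Cell Z par (z : Ω) z := fun z => ⟨z.2, 0, rfl⟩
  have hadj : ∀ w w' : Z, (SimpleGraph.fromRel T2).Adj w w' →
      ∃ u v, (SimpleGraph.fromRel T).Adj u v ∧ Cell Z par u w ∧ Cell Z par v w' := by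
    intro w w' h
    rw [SimpleGraph.fromRel_adj] at h
    have h2 : T2 w w' := h.2.elim id (hsym2 _ _)
    obtain ⟨u, v, huv, hu, hv⟩ := (hT2 w w').1 h2
    refine ⟨u, v, ?_, hu, hv⟩
    rw [SimpleGraph.fromRel_adj]
    refine ⟨?_, Or.inl huv⟩
    rintro rfl
    exact h.1 (Subtype.ext (cell_uniq Z par hpZ hu hv))
  have hparG : ∀ a, par a ≠ a → (SimpleGraph.fromRel T).Adj a (par a) := by
    intro a ha
    rw [SimpleGraph.fromRel_adj]
    exact ⟨fun h => ha h.symm, Or.inl (hpT a ha)⟩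
  refine ⟨?_, ?_⟩
  · rw [SimpleGraph.isAcyclic_iff_forall_adj_isBridge]
    intro z z' hzz
    obtain ⟨x, y, hxy, hx, hy⟩ := hadj z z' hzz
    have hbr := (SimpleGraph.isAcyclic_iff_forall_adj_isBridge.1 hac) hxy
    rw [SimpleGraph.isBridge_iff] at hbr ⊢
    intro hre
    apply hbr
    have hne : (z : Ω) ≠ z' := fun h => hzz.ne (Subtype.ext h)
    have hpH : ∀ a, par a ≠ a →
        ((SimpleGraph.fromRel T).deleteEdges {s(x, y)}).Adj a (par a) := by
      intro a ha
      rw [SimpleGraph.deleteEdges_adj]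
      refine ⟨hparG a ha, ?_⟩
      intro hmem
      rw [Set.mem_singleton_iff, Sym2.eq_iff] at hmem
      rcases hmem with ⟨h1, h2⟩ | ⟨h1, h2⟩
      · apply hne
        have : Cell Z par x z' := cell_par Z par (by rw [← h1, h2]; exact hy)
        exact cell_uniq Z par hpZ hx this
      · apply hne
        have : Cell Z par y z := cell_par Z par (by rw [← h1, h2]; exact hx)
        exact cell_uniq Z par hpZ this hy
    have hR : ((SimpleGraph.fromRel T).deleteEdges {s(x, y)}).Reachable (z : Ω) (z' : Ω) := by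
      refine lift_reach Z par _ hpH _ ?_ hre
      intro w w' hw
      rw [SimpleGraph.deleteEdges_adj] at hw
      obtain ⟨u, v, huv, hu, hv⟩ := hadj w w' hw.1
      refine ⟨u, v, ?_, hu, hv⟩
      rw [SimpleGraph.deleteEdges_adj]
      refine ⟨huv, ?_⟩
      intro hmem
      rw [Set.mem_singleton_iff, Sym2.eq_iff] at hmem
      apply hw.2
      rw [Set.mem_singleton_iff, Sym2.eq_iff]
      rcases hmem with ⟨h1, h2⟩ | ⟨h1, h2⟩
      · left
        subst h1; subst h2
        exact ⟨Subtype.ext (cell_uniq Z par hpZ hu hx), Subtype.ext (cell_uniq Z par hpZ hv hy)⟩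
      · right
        subst h1; subst h2
        exact ⟨Subtype.ext (cell_uniq Z par hpZ hu hy), Subtype.ext (cell_uniq Z par hpZ hv hx)⟩
    exact ((reach_cell Z par _ hpH hx).trans hR).trans (reach_cell Z par _ hpH hy).symm
  · intro z z'
    constructor
    · intro h
      exact lift_reach Z par _ hparG _ hadj h
    · intro h
      have key : ∀ x y, (SimpleGraph.fromRel T).Reachable x y → ∀ z z' : Z,
          Cell Z par x z → Cell Z par y z' → (SimpleGraph.fromRel T2).Reachable z z' := by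
        intro x y hxy
        rw [SimpleGraph.reachable_iff_reflTransGen] at hxy
        induction hxy with
        | refl =>
          intro z z' h1 h2
          have : z = z' := Subtype.ext (cell_uniq Z par hpZ h1 h2)
          rw [this]
        | tail _ hbc ih =>
          rename_i b c _
          intro z z' h1 h2
          rw [SimpleGraph.fromRel_adj] at hbc
          have hT : T c b := hbc.2.elim (hsym _ _) id
          obtain ⟨w, hw⟩ := hDT c b hT ⟨_, h2⟩
          have hw' : w ∈ Z := hw.1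
          have e1 := ih z ⟨w, hw'⟩ h1 hw
          by_cases hww : (⟨w, hw'⟩ : Z) = z'
          · rw [← hww]; exact e1
          · refine e1.trans (SimpleGraph.Adj.reachable ?_)
            rw [SimpleGraph.fromRel_adj]
            exact ⟨hww, Or.inl ((hT2 _ _).2 ⟨b, c, hsym _ _ hT, hw, h2⟩)⟩
      exact key z z' h z z' (hcellZ z) (hcellZ z')

end graph

section meas

variable {Γ Ω : Type*} [Group Γ] [Countable Γ] [MulAction Γ Ω] [MeasurableSpace Ω]
  [StandardBorelSpace Ω]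

/-- points at distance at most n from Z -/
def DD (Γ : Type*) {Ω : Type*} [Group Γ] [MulAction Γ Ω] (T : Set (Ω × Ω)) (Z : Set Ω) :
    ℕ → Set Ω
  | 0 => Z
  | n + 1 => DD Γ T Z n ∪ {x | ∃ γ : Γ, (x, γ • x) ∈ T ∧ γ • x ∈ DD Γ T Z n}

theorem DD_meas (hm : ∀ γ : Γ, Measurable (fun x : Ω => γ • x)) (T : Set (Ω × Ω))
    (hT : MeasurableSet T) (Z : Set Ω) (hZ : MeasurableSet Z) (n : ℕ) :
    MeasurableSet (DD Γ T Z n) := by
  induction n with
  | zero => exact hZ
  | succ n ih =>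
    refine ih.union ?_
    have : {x : Ω | ∃ γ : Γ, (x, γ • x) ∈ T ∧ γ • x ∈ DD Γ T Z n} =
        ⋃ γ : Γ, ((fun x : Ω => (x, γ • x)) ⁻¹' T ∩ (fun x : Ω => γ • x) ⁻¹' (DD Γ T Z n)) := by
      ext x; simp
    rw [this]
    refine MeasurableSet.iUnion fun γ => ?_
    exact (hT.preimage (measurable_id.prodMk (hm γ))).inter (ih.preimage (hm γ))

/-- gamma moves x one step closer to Z -/
def Good (T : Set (Ω × Ω)) (Z : Set Ω) (x : Ω) (γ : Γ) : Prop :=
  ∃ n, x ∈ DD Γ T Z (n + 1) ∧ x ∉ DD Γ T Z n ∧ (x, γ • x) ∈ T ∧ γ • x ∈ DD Γ T Z n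

theorem Good_meas (hm : ∀ γ : Γ, Measurable (fun x : Ω => γ • x)) (T : Set (Ω × Ω))
    (hT : MeasurableSet T) (Z : Set Ω) (hZ : MeasurableSet Z) (γ : Γ) :
    MeasurableSet {x : Ω | Good T Z x γ} := by
  have : {x : Ω | Good T Z x γ} = ⋃ n : ℕ, (DD Γ T Z (n + 1) ∩ (DD Γ T Z n)ᶜ ∩
      ((fun x : Ω => (x, γ • x)) ⁻¹' T ∩ (fun x : Ω => γ • x) ⁻¹' (DD Γ T Z n))) := by
    ext x
    simp only [Good, mem_ofPred_eq, mem_iUnion, mem_inter_iff, mem_compl_iff, mem_preimage]
    constructor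
    · rintro ⟨n, a, b, c, d⟩
      exact ⟨n, ⟨a, b⟩, c, d⟩
    · rintro ⟨n, ⟨a, b⟩, c, d⟩
      exact ⟨n, a, b, c, d⟩
  rw [this]
  refine MeasurableSet.iUnion fun n => ?_
  exact ((DD_meas hm T hT Z hZ _).inter (DD_meas hm T hT Z hZ _).compl).inter
    ((hT.preimage (measurable_id.prodMk (hm γ))).inter ((DD_meas hm T hT Z hZ _).preimage (hm γ)))

open Classical in
/-- the parent function -/
noncomputable def parF (T : Set (Ω × Ω)) (Z : Set Ω) (e : ℕ → Γ) (x : Ω) : Ω :=
  if h : ∃ k, Good T Z x (e k) then e (Nat.find h) • x else x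

theorem parF_meas (hm : ∀ γ : Γ, Measurable (fun x : Ω => γ • x)) (T : Set (Ω × Ω))
    (hT : MeasurableSet T) (Z : Set Ω) (hZ : MeasurableSet Z) (e : ℕ → Γ) :
    Measurable (parF T Z e) := by
  classical
  intro S hS
  have hG := fun k => Good_meas hm T hT Z hZ (e k)
  have : parF T Z e ⁻¹' S = (⋃ k : ℕ, ({x : Ω | Good T Z x (e k)} ∩
      (⋂ j : ℕ, ⋂ _ : j < k, {x : Ω | Good T Z x (e j)}ᶜ) ∩ (fun x : Ω => e k • x) ⁻¹' S)) ∪
      ((⋃ k : ℕ, {x : Ω | Good T Z x (e k)})ᶜ ∩ S) := by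
    ext x
    simp only [mem_preimage, mem_union, mem_iUnion, mem_inter_iff, mem_ofPred_eq, mem_iInter,
      mem_compl_iff, parF]
    constructor
    · intro hx
      split_ifs at hx with h
      · left
        exact ⟨Nat.find h, ⟨Nat.find_spec h, fun j hj => Nat.find_min h hj⟩, hx⟩
      · right
        exact ⟨h, hx⟩
    · rintro (⟨k, ⟨hk, hmin⟩, hx⟩ | ⟨h, hx⟩)
      · have h : ∃ k, Good T Z x (e k) := ⟨k, hk⟩
        rw [dif_pos h]
        have : Nat.find h = k := by
          refine le_antisymm (Nat.find_min' h hk) ?_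
          by_contra hlt
          push Not at hlt
          exact hmin _ hlt (Nat.find_spec h)
        rw [this]; exact hx
      · rw [dif_neg h]; exact hx
  rw [this]
  refine MeasurableSet.union (MeasurableSet.iUnion fun k => ?_) ?_
  · refine ((hG k).inter ?_).inter (hS.preimage (hm _))
    exact MeasurableSet.iInter fun j => MeasurableSet.iInter fun _ => (hG j).compl
  · exact (MeasurableSet.iUnion hG).compl.inter hS

/-- RESTRICTION LEMMA: a measurable treeing restricts to a measurable subset. -/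
theorem restrict (hm : ∀ γ : Γ, Measurable (fun x : Ω => γ • x)) (T : Set (Ω × Ω))
    (hT : MeasurableSet T) (hsym : ∀ x y, (x, y) ∈ T → (y, x) ∈ T)
    (horb : ∀ x y, (x, y) ∈ T → ∃ γ : Γ, γ • x = y)
    (hac : (SimpleGraph.fromRel (fun x y : Ω => (x, y) ∈ T)).IsAcyclic)
    (Z : Set Ω) (hZ : MeasurableSet Z) :
    ∃ T2 : Set (Z × Z), MeasurableSet T2 ∧
      (∀ x y, (x, y) ∈ T2 → (y, x) ∈ T2) ∧
      (SimpleGraph.fromRel (fun x y : Z => (x, y) ∈ T2)).IsAcyclic ∧
      ∀ z z' : Z, (SimpleGraph.fromRel (fun x y : Z => (x, y) ∈ T2)).Reachable z z' ↔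
        (SimpleGraph.fromRel (fun x y : Ω => (x, y) ∈ T)).Reachable (z : Ω) (z' : Ω) := by
  classical
  obtain ⟨e, he⟩ := exists_surjective_nat Γ
  set par := parF T Z e with hpar
  have hparm : Measurable par := parF_meas hm T hT Z hZ e
  have hmono : ∀ n m, n ≤ m → DD Γ T Z n ⊆ DD Γ T Z m := by
    intro n m h
    induction h with
    | refl => exact subset_rfl
    | step _ ih => exact ih.trans subset_union_left
  have hgood : ∀ x, par x ≠ x → ∃ n, x ∈ DD Γ T Z (n + 1) ∧ x ∉ DD Γ T Z n ∧ (x, par x) ∈ T ∧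
      par x ∈ DD Γ T Z n := by
    intro x hx
    by_cases h : ∃ k, Good T Z x (e k)
    · have h1 : par x = e (Nat.find h) • x := by rw [hpar, parF, dif_pos h]
      rw [h1]
      exact Nat.find_spec h
    · exact absurd (by rw [hpar, parF, dif_neg h]) hx
  have hpZ : ∀ z ∈ Z, par z = z := by
    intro z hz
    by_contra h
    obtain ⟨n, _, h2, _⟩ := hgood z h
    exact h2 (hmono 0 n (Nat.zero_le _) hz)
  have hpT : ∀ x, par x ≠ x → (x, par x) ∈ T := fun x hx => by
    obtain ⟨n, _, _, h, _⟩ := hgood x hx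
    exact h
  have hstep : ∀ n, ∀ x ∈ DD Γ T Z (n + 1), par x ∈ DD Γ T Z n ∨ (x ∈ DD Γ T Z n) := by
    intro n x hx
    by_cases hxn : x ∈ DD Γ T Z n
    · exact Or.inr hxn
    · left
      rcases hx with hx | ⟨γ, h1, h2⟩
      · exact absurd hx hxn
      · obtain ⟨k, rfl⟩ := he γ
        have h : ∃ k, Good T Z x (e k) := ⟨k, n, Or.inr ⟨e k, h1, h2⟩, hxn, h1, h2⟩
        have h1 : par x = e (Nat.find h) • x := by rw [hpar, parF, dif_pos h]
        obtain ⟨m, a, b, c, d⟩ := Nat.find_spec h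
        have hmn : m = n := by
          by_contra hne
          rcases lt_or_gt_of_ne hne with hlt | hlt
          · exact hxn (hmono (m + 1) n hlt a)
          · exact b (hmono (n + 1) m hlt (Or.inr ⟨_, by assumption, h2⟩))
        rw [h1, ← hmn]; exact d
  have hcell : ∀ n, ∀ x ∈ DD Γ T Z n, ∃ z, Cell Z par x z := by
    intro n
    induction n with
    | zero => intro x hx; exact ⟨x, hx, 0, rfl⟩
    | succ n ih =>
      intro x hx
      rcases hstep n x hx with h | h
      · obtain ⟨z, hz⟩ := ih _ h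
        exact ⟨z, cell_par Z par hz⟩
      · exact ih _ h
  have hcellD : ∀ x, (∃ z, Cell Z par x z) → ∃ n, x ∈ DD Γ T Z n := by
    rintro x ⟨z, hz, n, hn⟩
    by_cases h : par x = x
    · have : par^[n] x = x := Function.iterate_fixed h n
      rw [this] at hn
      exact ⟨0, by rw [hn]; exact hz⟩
    · obtain ⟨m, h1, _⟩ := hgood x h
      exact ⟨m + 1, h1⟩
  have hDT : ∀ x y, (x, y) ∈ T → (∃ z, Cell Z par x z) → ∃ z, Cell Z par y z := by
    intro x y hxy hx
    obtain ⟨n, hn⟩ := hcellD x hx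
    have hyx := hsym x y hxy
    obtain ⟨γ, hγ⟩ := horb y x hyx
    refine hcell (n + 1) y (Or.inr ⟨γ, ?_, ?_⟩)
    · rw [hγ]; exact hyx
    · rw [hγ]; exact hn
  -- the contracted treeing
  let T2 : Set (Z × Z) := {p | ∃ γ δ : Γ, (γ • (p.1 : Ω), δ • (p.2 : Ω)) ∈ T ∧
    (∃ n : ℕ, par^[n] (γ • (p.1 : Ω)) = p.1) ∧ (∃ m : ℕ, par^[m] (δ • (p.2 : Ω)) = p.2)}
  have horbc : ∀ x z, Cell Z par x z → ∃ γ : Γ, x = γ • z := by
    rintro x z ⟨_, n, hn⟩
    have : ∀ n, ∀ x, ∃ γ : Γ, γ • x = par^[n] x := by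
      intro n
      induction n with
      | zero => intro x; exact ⟨1, one_smul _ _⟩
      | succ n ih =>
        intro x
        rw [Function.iterate_succ_apply]
        obtain ⟨γ, hγ⟩ := ih (par x)
        by_cases h : par x = x
        · exact ⟨γ, by rw [← hγ, h]⟩
        · obtain ⟨δ, hδ⟩ := horb x _ (hpT x h)
          exact ⟨γ * δ, by rw [mul_smul, hδ, hγ]⟩
    obtain ⟨γ, hγ⟩ := this n x
    exact ⟨γ⁻¹, by rw [← hn, ← hγ, inv_smul_smul]⟩
  have hT2 : ∀ z z' : Z, (z, z') ∈ T2 ↔ ∃ x y, (x, y) ∈ T ∧ Cell Z par x z ∧ Cell Z par y z' := by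
    intro z z'
    constructor
    · rintro ⟨γ, δ, h1, ⟨n, hn⟩, ⟨m, hm'⟩⟩
      exact ⟨_, _, h1, ⟨z.2, n, hn⟩, ⟨z'.2, m, hm'⟩⟩
    · rintro ⟨x, y, hxy, hx, hy⟩
      obtain ⟨γ, rfl⟩ := horbc x z hx
      obtain ⟨δ, rfl⟩ := horbc y z' hy
      exact ⟨γ, δ, hxy, hx.2, hy.2⟩
  have hmeas : MeasurableSet T2 := by
    have : T2 = ⋃ γ : Γ, ⋃ δ : Γ,
        ((fun p : Z × Z => (γ • (p.1 : Ω), δ • (p.2 : Ω))) ⁻¹' T) ∩
        ((⋃ n : ℕ, {p : Z × Z | par^[n] (γ • (p.1 : Ω)) = p.1}) ∩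
        (⋃ m : ℕ, {p : Z × Z | par^[m] (δ • (p.2 : Ω)) = p.2})) := by
      ext p
      simp [T2]
    rw [this]
    have m1 : ∀ γ : Γ, Measurable (fun p : Z × Z => γ • (p.1 : Ω)) := fun γ =>
      (hm γ).comp (measurable_subtype_coe.comp measurable_fst)
    have m2 : ∀ γ : Γ, Measurable (fun p : Z × Z => γ • (p.2 : Ω)) := fun γ =>
      (hm γ).comp (measurable_subtype_coe.comp measurable_snd)
    refine MeasurableSet.iUnion fun γ => MeasurableSet.iUnion fun δ => ?_
    refine (hT.preimage ((m1 γ).prodMk (m2 δ))).inter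
      ((MeasurableSet.iUnion fun n => ?_).inter (MeasurableSet.iUnion fun n => ?_))
    · exact measurableSet_eq_fun ((hparm.iterate n).comp (m1 γ))
        (measurable_subtype_coe.comp measurable_fst)
    · exact measurableSet_eq_fun ((hparm.iterate n).comp (m2 δ))
        (measurable_subtype_coe.comp measurable_snd)
  obtain ⟨hA, hB⟩ := contract (fun x y => (x, y) ∈ T) Z par hsym hac hpZ hpT hDT
    (fun z z' => (z, z') ∈ T2) hT2
  refine ⟨T2, hmeas, ?_, hA, hB⟩
  intro x y h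
  obtain ⟨u, v, huv, hu, hv⟩ := (hT2 x y).1 h
  exact (hT2 y x).2 ⟨v, u, hsym u v huv, hv, hu⟩

end meas

end Pool.Agent.Helper634.AT
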