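import Pool.Agent.H171AT.AT_Geo2

/-! Final assembly of S02495 from the modules, helper171. -/

open MeasureTheory Matrix

namespace Pool.Agent.AT

lemma countable_of_finBalls {Γ : Type} [Group Γ] (a : Γ →* G) (h : FinBalls a) :
    Countable Γ := by
  have hu : (Set.univ : Set Γ) = ⋃ n : ℕ, {γ : Γ | ∀ i j, |(a γ).mat i j| ≤ (n : ℝ)} := by
    symm
    rw [Set.eq_univ_iff_forall]
    intro γ
    obtain ⟨n, hn⟩ := exists_nat_ge (∑ i, ∑ j, |(a γ).mat i j|)
    refine Set.mem_iUnion.2 ⟨n, ?_⟩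
    intro i j
    refine le_trans ?_ hn
    refine le_trans ?_ (Finset.single_le_sum (f := fun i => ∑ j, |(a γ).mat i j|)
      (fun i _ => Finset.sum_nonneg (fun j _ => abs_nonneg _)) (Finset.mem_univ i))
    exact Finset.single_le_sum (f := fun j => |(a γ).mat i j|)
      (fun j _ => abs_nonneg _) (Finset.mem_univ j)
  have hc : (Set.univ : Set Γ).Countable := by
    rw [hu]
    exact Set.countable_iUnion (fun n => (h n).countable)
  exact Set.countable_univ_iff.1 hc

lemma mulVec_e0_mem (A : G) : A.mat *ᵥ e0 ∈ H3 := by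
  have h1 : A.mat *ᵥ e0 = fun i => A.mat i 3 := by
    ext i
    simp [Matrix.mulVec, dotProduct, e0, Fin.sum_univ_four]
  have h2 := lor_col A.lor
  constructor
  · rw [h1]; simp only [form]; linarith
  · rw [h1]; exact A.pos

lemma right_inv_bb (M1 : StM1) (w : W) :
    MeasurePreserving (fun g : G => g * bb w) (Measure.haar : Measure G) Measure.haar := by
  induction w using cs.simple_induction_left with
  | one =>
    have h0 : (fun g : G => g * bb 1) = id := by funext g; simp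
    rw [h0]; exact MeasurePreserving.id _
  | mul_simple_left w i ih =>
    have h1 : MeasurePreserving (fun g : G => g * bb (gen i)) (Measure.haar : Measure G)
        Measure.haar := by
      rw [bb_gen]; exact M1 _ (refl_sq i)
    have h2 := ih.comp h1
    have h3 : (fun g : G => g * bb w) ∘ (fun g : G => g * bb (gen i))
        = fun g : G => g * bb (cs.simple i * w) := by
      funext g
      simp only [Function.comp]
      rw [map_mul, mul_assoc]; rfl
    rwa [h3] at h2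

lemma cover_finite (T3 : StT3) (M1 : StM1) (M2 : StM2) [Countable W]
    (F : Set G) (hF : MeasurableSet F) (hF' : ∀ g : G, ∃! w : W, bb w * g ∈ F) :
    (Measure.haar : Measure G) {g | g⁻¹ ∈ F} ≠ ⊤ := by
  set m : Measure G := Measure.haar
  set U : Set G := {g : G | (g⁻¹).mat *ᵥ e0 ∈ Cusp}
  set U' := toMeasurable m U
  have hU' : MeasurableSet U' := measurableSet_toMeasurable _ _
  have hUU : U ⊆ U' := subset_toMeasurable _ _
  have hmU : m U' < ⊤ := by rw [measure_toMeasurable]; exact M2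
  set F' : Set G := {g | g⁻¹ ∈ F}
  have hmF : MeasurableSet F' := measurable_inv hF
  have hcov : F' ⊆ ⋃ w : W, {g : G | g * (bb w)⁻¹ ∈ U'} ∩ F' := by
    intro g hg
    obtain ⟨w, hw⟩ := T3 _ (mulVec_e0_mem g⁻¹)
    refine Set.mem_iUnion.2 ⟨w, hUU ?_, hg⟩
    show ((g * (bb w)⁻¹)⁻¹).mat *ᵥ e0 ∈ Cusp
    rw [_root_.mul_inv_rev, inv_inv, G.mat_mul, ← Matrix.mulVec_mulVec]
    exact hw
  have hpre : ∀ w : W, m ({g : G | g * (bb w)⁻¹ ∈ U'} ∩ F')
      = m (U' ∩ {g : G | g * bb w ∈ F'}) := by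
    intro w
    have h := right_inv_bb M1 w
    have hms : MeasurableSet ({g : G | g * (bb w)⁻¹ ∈ U'} ∩ F') :=
      (measurable_mul_const _ hU').inter hmF
    rw [← h.measure_preimage hms.nullMeasurableSet]
    congr 1
    ext g
    simp [Set.mem_preimage]
  have hdisj : Pairwise (Function.onFun Disjoint fun w : W => U' ∩ {g : G | g * bb w ∈ F'}) := by
    intro w w' hne
    rw [Function.onFun, Set.disjoint_left]
    rintro g ⟨_, h1⟩ ⟨_, h2⟩
    have h1' : bb w⁻¹ * g⁻¹ ∈ F := by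
      have : (g * bb w)⁻¹ ∈ F := h1
      rwa [_root_.mul_inv_rev, ← map_inv] at this
    have h2' : bb w'⁻¹ * g⁻¹ ∈ F := by
      have : (g * bb w')⁻¹ ∈ F := h2
      rwa [_root_.mul_inv_rev, ← map_inv] at this
    obtain ⟨u, _, hu⟩ := hF' g⁻¹
    have e1 := hu _ h1'
    have e2 := hu _ h2'
    exact hne (inv_injective (e1.trans e2.symm))
  have hle : m F' ≤ m U' := by
    calc m F' ≤ m (⋃ w : W, {g : G | g * (bb w)⁻¹ ∈ U'} ∩ F') := measure_mono hcov
      _ ≤ ∑' w : W, m ({g : G | g * (bb w)⁻¹ ∈ U'} ∩ F') := measure_iUnion_le _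
      _ = ∑' w : W, m (U' ∩ {g : G | g * bb w ∈ F'}) := by simp_rw [hpre]
      _ = m (⋃ w : W, U' ∩ {g : G | g * bb w ∈ F'}) := by
          rw [measure_iUnion hdisj]
          intro w
          exact hU'.inter (measurable_mul_const _ hmF)
      _ ≤ m U' := measure_mono (Set.iUnion_subset fun w => Set.inter_subset_left)
  exact (lt_of_le_of_lt hle hmU).ne

lemma pos_fd (M1 : StM1) [Countable W]
    (F : Set G) (hF : MeasurableSet F) (hF' : ∀ g : G, ∃! w : W, bb w * g ∈ F) :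
    (Measure.haar : Measure G) {g | g⁻¹ ∈ F} ≠ 0 := by
  intro h0
  set m : Measure G := Measure.haar
  set F' : Set G := {g | g⁻¹ ∈ F}
  have hmF : MeasurableSet F' := measurable_inv hF
  have hcov : (Set.univ : Set G) ⊆ ⋃ w : W, {g : G | g * bb w ∈ F'} := by
    intro g _
    obtain ⟨w, hw, _⟩ := hF' g⁻¹
    refine Set.mem_iUnion.2 ⟨w⁻¹, ?_⟩
    show (g * bb w⁻¹)⁻¹ ∈ F
    rw [_root_.mul_inv_rev, map_inv, inv_inv]
    exact hw
  have hz : m (Set.univ : Set G) = 0 := by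
    refine measure_mono_null hcov ?_
    rw [measure_iUnion_null_iff]
    intro w
    have h := right_inv_bb M1 w
    have := h.measure_preimage hmF.nullMeasurableSet
    rw [h0] at this
    exact this
  exact (isOpen_univ.measure_ne_zero m Set.univ_nonempty) hz

/-- the assembly -/
theorem final (hX : ModuleX) (T1 : StT1) (T3 : StT3) (M1 : StM1) (M2 : StM2)
    (F1 : StF1) (F2 : StF2) (F3 : StF3) (hI : StI) :
  ∀ H : Subgroup (Matrix (Fin 4) (Fin 4) ℝ)ˣ,
    (∀ g ∈ H,
      Matrix.transpose (g : Matrix (Fin 4) (Fin 4) ℝ) * Matrix.diagonal (![1, 1, 1, -1] : Fin 4 → ℝ)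
          * (g : Matrix (Fin 4) (Fin 4) ℝ) = Matrix.diagonal (![1, 1, 1, -1] : Fin 4 → ℝ)
        ∧ 0 < (g : Matrix (Fin 4) (Fin 4) ℝ) 3 3) →
    DiscreteTopology
      ((fun g : (Matrix (Fin 4) (Fin 4) ℝ)ˣ => (g : Matrix (Fin 4) (Fin 4) ℝ)) ''
        (H : Set (Matrix (Fin 4) (Fin 4) ℝ)ˣ)) →
    (∀ g ∈ H, ∀ n : ℕ, 0 < n → g ^ n = 1 → g = 1) →
    ∃ (X : Type) (_ : MeasurableSpace X) (_ : StandardBorelSpace X)
      (μ : Measure X) (_ : IsProbabilityMeasure μ) (_ : MulAction H X),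
      (∀ g : H, MeasurePreserving (fun x : X => g • x) μ μ) ∧
      (∀ᵐ x ∂μ, ∀ g : H, g • x = x → g = 1) ∧
      ∃ S : ℕ → Set (X × X),
        (∀ n, MeasurableSet (S n)) ∧
        (∀ n, ∀ x : X, (x, x) ∈ S n) ∧
        (∀ n, ∀ x y : X, (x, y) ∈ S n → (y, x) ∈ S n) ∧
        (∀ n, ∀ x y z : X, (x, y) ∈ S n → (y, z) ∈ S n → (x, z) ∈ S n) ∧
        (∀ n, S n ⊆ S (n + 1)) ∧
        (∀ x y : X, (∃ n, (x, y) ∈ S n) ↔ ∃ g : H, g • x = y) ∧
        (∀ n, ∃ G : Set (X × X), MeasurableSet G ∧ G ⊆ S n ∧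
          ∃ Y : Set X, MeasurableSet Y ∧ μ Yᶜ = 0 ∧
            (∀ g : H, ∀ x ∈ Y, g • x ∈ Y) ∧
            ((SimpleGraph.fromRel (fun x y : X => (x, y) ∈ G)).induce Y).IsAcyclic ∧
            (∀ x y : Y,
              (((x : X), (y : X)) ∈ S n ↔
                ((SimpleGraph.fromRel (fun x y : X => (x, y) ∈ G)).induce Y).Reachable x y))) := by
  intro H hH hdisc _
  obtain ⟨inj, fb⟩ := F2 H hH hdisc
  have : Countable H := countable_of_finBalls _ fb
  have : Countable W := countable_of_finBalls _ F3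
  obtain ⟨D, hD, hD'⟩ := F1 H (incl H hH) inj fb
  obtain ⟨F, hF, hF'⟩ := F1 W bb T1 F3
  obtain ⟨X₀, i1, i2, μ₀, i3, i4, hmp, hfree, hAT⟩ := hX
  have := hI H W G (incl H hH) bb (Measure.haar : Measure G) D F X₀ μ₀
    (fun γ => measurePreserving_mul_left _ _) (right_inv_bb M1) hD hD' hF
    (fun g => hF' g⁻¹) (pos_fd M1 F hF hF') (cover_finite T3 M1 M2 F hF hF') hmp hfree hAT
  exact this

end Pool.Agent.AT
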