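import Pool.Agent.H171AT.AT_Res

/-! The orbit part of module X: from a `2`-adic height function to an `ATSys`. -/

namespace Pool.Agent.AT

open MeasureTheory

lemma acyclic_of_blocks {X : Type*} (G : SimpleGraph X)
    (h : ∀ x : X, ∃ B : Set X, x ∈ B ∧ (∀ y ∈ B, ∀ z, G.Adj y z → z ∈ B) ∧
      (G.induce B).IsAcyclic) : G.IsAcyclic := by
  intro x p hp
  obtain ⟨B, hx, hB, hA⟩ := h x
  have hs : ∀ (u v : X) (q : G.Walk u v), u ∈ B → ∀ y ∈ q.support, y ∈ B := by
    intro u v q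
    induction q with
    | nil => intro hu y hy; simp at hy; subst hy; exact hu
    | cons hadj q ih =>
      intro hu y hy
      rw [SimpleGraph.Walk.support_cons, List.mem_cons] at hy
      rcases hy with rfl | hy
      · exact hu
      · exact ih (hB _ hu _ hadj) y hy
  have hs' := hs x x p hx
  apply hA (p.induce B hs')
  apply SimpleGraph.Walk.IsCycle.of_map (f := (SimpleGraph.Embedding.induce B).toHom)
  rw [SimpleGraph.Walk.map_induce]
  exact hp

/-- the adic height structure on `X₀` -/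
structure HSp (X₀ : Type) [MeasurableSpace X₀] [MulAction W X₀] [MeasurableSpace ℤ_[2]] where
  st : X₀ → Bool × Bool × ℤ_[2]
  meas : Measurable st
  eqv : ∀ (w : W) (x : X₀), st (w • x) = θ ℤ_[2] w (st x)
  nint : ∀ (x : X₀) (k : ℤ), (st x).2.2 ≠ (k : ℤ_[2])

lemma step_shift (s : V) (p : Bool × Bool × ℤ) (c : ℤ_[2]) :
    step ℤ_[2] s (p.1, p.2.1, c + (p.2.2 : ℤ_[2])) =
      ((step ℤ s p).1, (step ℤ s p).2.1, c + (((step ℤ s p).2.2 : ℤ) : ℤ_[2])) := by
  unfold step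
  by_cases h : asc p.1 p.2.1 s = true
  · simp only [h, if_true]; push_cast; rw [add_assoc]
  · simp only [h]; push_cast; simp [add_assoc]

lemma theta_shift (w : W) (p : Bool × Bool × ℤ) (c : ℤ_[2]) :
    θ ℤ_[2] w (p.1, p.2.1, c + (p.2.2 : ℤ_[2])) =
      ((θ ℤ w p).1, (θ ℤ w p).2.1, c + (((θ ℤ w p).2.2 : ℤ) : ℤ_[2])) := by
  induction w using cs.simple_induction_left with
  | one => simp
  | mul_simple_left w s ih =>
    rw [map_mul, map_mul, Equiv.Perm.mul_apply, Equiv.Perm.mul_apply, ih]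
    change θ ℤ_[2] (gen s) _ = ((θ ℤ (gen s) _).1, _, _)
    rw [θ_gen]
    rw [step_shift s (θ ℤ w p) c]
    change _ = (_, (θ ℤ (gen s) _).2.1, c + (((θ ℤ (gen s) _).2.2 : ℤ) : ℤ_[2]))
    rw [θ_gen]

lemma step_shiftZ (s : V) (a b : Bool) (m c : ℤ) :
    step ℤ s (a, b, m + c) =
      ((step ℤ s (a, b, m)).1, (step ℤ s (a, b, m)).2.1, (step ℤ s (a, b, m)).2.2 + c) := by
  unfold step
  simp only [Prod.mk.injEq, true_and]
  split_ifs <;> ring

lemma theta_shiftZ (w : W) (p : Bool × Bool × ℤ) (c : ℤ) :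
    θ ℤ w (p.1, p.2.1, p.2.2 + c) =
      ((θ ℤ w p).1, (θ ℤ w p).2.1, (θ ℤ w p).2.2 + c) := by
  induction w using cs.simple_induction_left with
  | one => simp
  | mul_simple_left w s ih =>
    rw [map_mul, Equiv.Perm.mul_apply, Equiv.Perm.mul_apply, ih]
    change θ ℤ (gen s) _ = ((θ ℤ (gen s) _).1, (θ ℤ (gen s) _).2.1, (θ ℤ (gen s) _).2.2 + c)
    rw [θ_gen, θ_gen, step_shiftZ]

lemma stt_mul (q : Bool × Bool × ℤ) (w w' : W) : stt q (w' * w) = θ ℤ w' (stt q w) := by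
  unfold stt; rw [map_mul, Equiv.Perm.mul_apply]

lemma stt_gen_mul (q : Bool × Bool × ℤ) (w : W) (s : V) :
    stt q (gen s * w) = step ℤ s (stt q w) := by
  rw [stt_mul, θ_gen]

lemma gen_mul_self (s : V) : gen s * gen s = 1 := cs.simple_mul_simple_self s

/-- edge condition on states -/
def eS (p : Bool × Bool × ℤ) (s : V) : Prop :=
  (p.2.2 = 0 ∧ asc p.1 p.2.1 s = true) ∨ (2 ≤ p.2.2 ∧ s = ldesc p.1 p.2.1)

lemma eS_step {p : Bool × Bool × ℤ} {s : V} (h : eS p s) :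
    1 ≤ (step ℤ s p).2.2 ∧ (p.2.2 = 0 → (step ℤ s p).2.2 = 1) ∧
      (2 ≤ p.2.2 → (step ℤ s p).2.2 = p.2.2 - 1) := by
  rcases h with ⟨h1, h2⟩ | ⟨h1, h2⟩
  · simp only [step, h2, if_true]
    refine ⟨by omega, fun _ => by omega, fun h => by omega⟩
  · subst h2
    simp only [step, asc_ldesc]
    refine ⟨?_, fun h => by omega, fun _ => ?_⟩
    · simp; omega
    · simp; omega

lemma eS_edge {N : ℤ} {q : Bool × Bool × ℤ} {w : W} {s : V} (h1 : ht q w < N)
    (h : eS (stt q w) s) : edgeT N q w (gen s * w) := by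
  have h3 := eS_step h
  rcases h with h | h
  · left
    refine ⟨h.1, ?_, s, rfl⟩
    unfold ht
    rw [stt_gen_mul]
    exact h3.2.1 h.1
  · right
    refine ⟨h.1, h1, ?_⟩
    rw [h.2]

lemma edge_eS {N : ℤ} {q : Bool × Bool × ℤ} {w w' : W} (h : edgeT N q w w') :
    ∃ s, w' = gen s * w ∧ eS (stt q w) s := by
  rcases h with ⟨h1, h2, s, h3⟩ | ⟨h1, h2, h3⟩
  · refine ⟨s, h3, Or.inl ⟨h1, ?_⟩⟩
    unfold ht at h1 h2
    rw [h3, stt_gen_mul] at h2
    by_contra hc
    simp only [Bool.not_eq_true] at hc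
    simp only [step, hc] at h2
    simp at h2
    omega
  · exact ⟨_, h3, Or.inr ⟨h1, rfl⟩⟩

lemma edge_ht {N : ℤ} (hN : 2 ≤ N) {q : Bool × Bool × ℤ} {w w' : W} (h : edgeT N q w w') :
    (0 ≤ ht q w ∧ ht q w < N) ∧ (0 ≤ ht q w' ∧ ht q w' < N) := by
  obtain ⟨s, hs, he⟩ := edge_eS h
  have h4 := eS_step he
  have h5 : ht q w' = (step ℤ s (stt q w)).2.2 := by
    unfold ht; rw [hs, stt_gen_mul]
  rcases h with ⟨h1, h2, _⟩ | ⟨h1, h2, h3⟩
  · omega
  · have h6 := h4.2.2 h1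
    have h7 : (stt q w).2.2 = ht q w := rfl
    rw [h6, h7] at h5
    omega

lemma two_le_N (n : ℕ) : (2 : ℤ) ≤ 2 ^ (n + 1) := by
  have : (2 : ℤ) ^ 1 ≤ 2 ^ (n + 1) := pow_le_pow_right₀ (by norm_num) (by omega)
  simpa using this

lemma ht_one (q : Bool × Bool × ℤ) : ht q 1 = q.2.2 := by
  unfold ht stt; simp

lemma ht_shift (q : Bool × Bool × ℤ) (c : ℤ) (w : W) :
    ht (q.1, q.2.1, q.2.2 + c) w = ht q w + c := by
  unfold ht stt
  rw [theta_shiftZ]

section
variable {X₀ : Type} [MeasurableSpace X₀] [MulAction W X₀]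
  [MeasurableSpace ℤ_[2]] (H : HSp X₀)

/-- base state at level `n` -/
noncomputable def bst (n : ℕ) (x : X₀) : Bool × Bool × ℤ :=
  ((H.st x).1, (H.st x).2.1, res n (H.st x).2.2)

lemma bst_nonneg (n : ℕ) (x : X₀) : 0 ≤ (bst H n x).2.2 := res_nonneg _ _

lemma bst_lt (n : ℕ) (x : X₀) : (bst H n x).2.2 < 2 ^ (n + 1) := res_lt _ _

lemma bst_smul (n : ℕ) (x : X₀) (w : W) (h0 : 0 ≤ ht (bst H n x) w)
    (h1 : ht (bst H n x) w < 2 ^ (n + 1)) : bst H n (w • x) = stt (bst H n x) w := by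
  have h2 := theta_shift w (bst H n x) ((H.st x).2.2 - (res n (H.st x).2.2 : ℤ_[2]))
  have h3 : ((bst H n x).1, (bst H n x).2.1,
      (H.st x).2.2 - (res n (H.st x).2.2 : ℤ_[2]) + ((bst H n x).2.2 : ℤ_[2])) = H.st x := by
    simp only [bst, sub_add_cancel]
  rw [h3, ← H.eqv] at h2
  have h4 : (θ ℤ w (bst H n x)).2.2 = ht (bst H n x) w := rfl
  have h5 : (H.st x).2.2 - (res n (H.st x).2.2 : ℤ_[2]) +
      (((θ ℤ w (bst H n x)).2.2 : ℤ) : ℤ_[2]) =
      (H.st x).2.2 + ((ht (bst H n x) w - res n (H.st x).2.2 : ℤ) : ℤ_[2]) := by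
    rw [h4]; push_cast; ring
  have h6 : res n (H.st (w • x)).2.2 = ht (bst H n x) w := by
    rw [h2]
    simp only [h5]
    rw [res_add]
    · ring
    · linarith
    · linarith
  unfold bst
  rw [h6, h2]
  rfl

/-- directed edges -/
def Dr (n : ℕ) (y z : X₀) : Prop := ∃ s, z = gen s • y ∧ eS (bst H n y) s

lemma bst_gen (n : ℕ) (y : X₀) (s : V) (h : eS (bst H n y) s) :
    bst H n (gen s • y) = step ℤ s (bst H n y) := by
  have h1 : stt (bst H n y) (gen s) = step ℤ s (bst H n y) := by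
    unfold stt; rw [θ_gen]
  have h2 := eS_step h
  have h3 := bst_lt H n y
  have hN : (2 : ℤ) ≤ 2 ^ (n + 1) := by
    have : (2 : ℤ) ^ 1 ≤ 2 ^ (n + 1) := pow_le_pow_right₀ (by norm_num) (by omega)
    simpa using this
  rw [← h1]
  apply bst_smul
  · unfold ht; rw [h1]; omega
  · unfold ht; rw [h1]
    rcases h with h | h
    · have := h2.2.1 h.1; omega
    · have := h2.2.2 h.1; omega

/-- the graph at level `n` -/
def grn (n : ℕ) : SimpleGraph X₀ := SimpleGraph.fromRel (Dr H n)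

lemma lift_edge (n : ℕ) (x : X₀) (w : W) (y : X₀) (h0 : 0 ≤ ht (bst H n x) w)
    (h1 : ht (bst H n x) w < 2 ^ (n + 1)) (h : (grn H n).Adj (w • x) y) :
    ∃ w', (0 ≤ ht (bst H n x) w' ∧ ht (bst H n x) w' < 2 ^ (n + 1)) ∧ y = w' • x ∧
      (TG (2 ^ (n + 1)) (bst H n x)).Adj w w' := by
  have hb := bst_smul H n x w h0 h1
  unfold grn at h
  rw [SimpleGraph.fromRel_adj] at h
  obtain ⟨hne, ⟨s, hs, he⟩ | ⟨s, hs, he⟩⟩ := h
  · rw [hb] at he
    have hE := eS_edge h1 he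
    refine ⟨gen s * w, (edge_ht (two_le_N n) hE).2, by rw [hs, mul_smul], ?_⟩
    unfold TG
    rw [SimpleGraph.fromRel_adj]
    refine ⟨?_, Or.inl hE⟩
    intro h2
    apply hne
    rw [hs, ← mul_smul, ← h2]
  · -- `w • x = gen s • y`
    have h2 := bst_gen H n y s he
    rw [← hs, hb] at h2
    have h3 : stt (bst H n x) (gen s * w) = bst H n y := by
      rw [stt_gen_mul, h2, step_invol]
    have hy : y = (gen s * w) • x := by
      rw [mul_smul, hs, ← mul_smul, gen_mul_self, one_smul]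
    have h4 : eS (stt (bst H n x) (gen s * w)) s := by rw [h3]; exact he
    have h5 : ht (bst H n x) (gen s * w) < 2 ^ (n + 1) := by
      unfold ht; rw [h3]; exact bst_lt H n y
    have hE := eS_edge h5 h4
    rw [← mul_assoc, gen_mul_self, one_mul] at hE
    refine ⟨gen s * w, (edge_ht (two_le_N n) hE).1, hy, ?_⟩
    unfold TG
    rw [SimpleGraph.fromRel_adj]
    refine ⟨?_, Or.inr hE⟩
    intro h6
    apply hne
    rw [hy, ← h6]

lemma map_edge (hf : ∀ (x : X₀) (w : W), w • x = x → w = 1) (n : ℕ) (x : X₀) {w w' : W}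
    (h : (TG (2 ^ (n + 1)) (bst H n x)).Adj w w') : (grn H n).Adj (w • x) (w' • x) := by
  have key : ∀ {u u' : W}, edgeT (2 ^ (n + 1)) (bst H n x) u u' → Dr H n (u • x) (u' • x) := by
    intro u u' hE
    obtain ⟨s, hs, he⟩ := edge_eS hE
    have h1 := (edge_ht (two_le_N n) hE).1
    refine ⟨s, by rw [hs, mul_smul], ?_⟩
    rw [bst_smul H n x u h1.1 h1.2]
    exact he
  unfold TG at h
  rw [SimpleGraph.fromRel_adj] at h
  unfold grn
  rw [SimpleGraph.fromRel_adj]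
  refine ⟨?_, h.2.imp key key⟩
  intro h2
  apply h.1
  have h3 : (w'⁻¹ * w) • x = x := by
    rw [mul_smul, h2, inv_smul_smul]
  have := hf x _ h3
  exact (inv_mul_eq_one.1 this).symm

lemma reach_lift (n : ℕ) (x : X₀) (y z : X₀) (h : (grn H n).Reachable y z) :
    (∃ w, (0 ≤ ht (bst H n x) w ∧ ht (bst H n x) w < 2 ^ (n + 1)) ∧ y = w • x) →
    (∃ w, (0 ≤ ht (bst H n x) w ∧ ht (bst H n x) w < 2 ^ (n + 1)) ∧ z = w • x) := by
  obtain ⟨p⟩ := h
  induction p with
  | nil => exact id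
  | cons hadj p ih =>
    rintro ⟨w, hw, rfl⟩
    obtain ⟨w', hw', rfl, -⟩ := lift_edge H n x w _ hw.1 hw.2 hadj
    exact ih ⟨w', hw', rfl⟩

lemma reach_iff (hC : TreeConn) (hf : ∀ (x : X₀) (w : W), w • x = x → w = 1) (n : ℕ)
    (x y : X₀) : (grn H n).Reachable x y ↔
      ∃ w, (0 ≤ ht (bst H n x) w ∧ ht (bst H n x) w < 2 ^ (n + 1)) ∧ y = w • x := by
  constructor
  · intro h
    apply reach_lift H n x x y h
    refine ⟨1, ?_, by simp⟩
    rw [ht_one]
    exact ⟨bst_nonneg H n x, bst_lt H n x⟩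
  · rintro ⟨w, hw, rfl⟩
    have h1 := hC (2 ^ (n + 1)) (bst H n x) (two_le_N n) 1 w
      (by rw [ht_one]; exact bst_nonneg H n x) (by rw [ht_one]; exact bst_lt H n x) hw.1 hw.2
    let f : TG (2 ^ (n + 1)) (bst H n x) →g grn H n :=
      ⟨fun w => w • x, fun h => map_edge H hf n x h⟩
    have h2 := h1.map f
    have h3 : f 1 = x := one_smul W x
    rw [h3] at h2
    exact h2

lemma ht_bst (n : ℕ) (x : X₀) (w : W) :
    ht (bst H n x) w = ht ((H.st x).1, (H.st x).2.1, 0) w + res n (H.st x).2.2 := by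
  rw [← ht_shift]
  simp only [bst, zero_add]

lemma grn_acyclic (hA : TreeAcyclic) (hf : ∀ (x : X₀) (w : W), w • x = x → w = 1) (n : ℕ) :
    (grn H n).IsAcyclic := by
  apply acyclic_of_blocks
  intro x
  refine ⟨{y | ∃ w, (0 ≤ ht (bst H n x) w ∧ ht (bst H n x) w < 2 ^ (n + 1)) ∧ y = w • x},
    ⟨1, ?_, by simp⟩, ?_, ?_⟩
  · rw [ht_one]
    exact ⟨bst_nonneg H n x, bst_lt H n x⟩
  · rintro y ⟨w, hw, rfl⟩ z hz
    obtain ⟨w', hw', h2, -⟩ := lift_edge H n x w _ hw.1 hw.2 hz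
    exact ⟨w', hw', h2⟩
  · classical
    set B : Set X₀ :=
      {y | ∃ w, (0 ≤ ht (bst H n x) w ∧ ht (bst H n x) w < 2 ^ (n + 1)) ∧ y = w • x} with hB
    let g : B → W := fun y => Classical.choose y.2
    have hg : ∀ y : B, (0 ≤ ht (bst H n x) (g y) ∧ ht (bst H n x) (g y) < 2 ^ (n + 1)) ∧
        (y : X₀) = g y • x := fun y => Classical.choose_spec y.2
    have hadj : ∀ y z : B, ((grn H n).induce B).Adj y z →
        (TG (2 ^ (n + 1)) (bst H n x)).Adj (g y) (g z) := by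
      intro y z h
      have h1 : (grn H n).Adj (g y • x) (z : X₀) := by
        rw [← (hg y).2]; exact h
      obtain ⟨w', hw', h2, h3⟩ := lift_edge H n x (g y) _ (hg y).1.1 (hg y).1.2 h1
      have h4 : w' = g z := by
        have h5 : ((g z)⁻¹ * w') • x = x := by
          rw [mul_smul, ← h2, inv_smul_eq_iff]
          exact (hg z).2
        have := hf x _ h5
        exact (inv_mul_eq_one.1 this).symm
      rw [← h4]; exact h3
    let f : (grn H n).induce B →g TG (2 ^ (n + 1)) (bst H n x) := ⟨g, fun h => hadj _ _ h⟩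
    refine SimpleGraph.IsAcyclic.comap f ?_ (hA _ _)
    intro y z h
    apply Subtype.ext
    rw [(hg y).2, (hg z).2]
    change g y = g z at h
    rw [h]

lemma adj_iff (hf : ∀ (x : X₀) (w : W), w • x = x → w = 1) (n : ℕ) (x : X₀) (γ : W) :
    (grn H n).Adj x (γ • x) ↔ γ ≠ 1 ∧ ((∃ s, γ = gen s ∧ eS (bst H n x) s) ∨
      (∃ s, gen s * γ = 1 ∧ eS (bst H n (γ • x)) s)) := by
  unfold grn
  rw [SimpleGraph.fromRel_adj]
  have hcancel : ∀ {u v : W}, u • x = v • x → u = v := by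
    intro u v h
    have h3 : (v⁻¹ * u) • x = x := by rw [mul_smul, h, inv_smul_smul]
    exact (inv_mul_eq_one.1 (hf x _ h3)).symm
  constructor
  · rintro ⟨h1, h2⟩
    refine ⟨fun h => h1 (by rw [h, one_smul]), h2.imp ?_ ?_⟩
    · rintro ⟨s, hs, he⟩
      exact ⟨s, hcancel hs, he⟩
    · rintro ⟨s, hs, he⟩
      refine ⟨s, hcancel ?_, he⟩
      rw [mul_smul, ← hs, one_smul]
  · rintro ⟨h1, h2⟩
    refine ⟨fun h => h1 (hcancel (by rw [← h, one_smul])), h2.imp ?_ ?_⟩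
    · rintro ⟨s, hs, he⟩
      exact ⟨s, by rw [hs], he⟩
    · rintro ⟨s, hs, he⟩
      exact ⟨s, by rw [← mul_smul, hs, one_smul], he⟩

lemma measurable_bst [BorelSpace ℤ_[2]] (n : ℕ) : Measurable (bst H n) := by
  have h1 : Measurable (fun x => (H.st x).1) := measurable_fst.comp H.meas
  have h2 : Measurable (fun x => (H.st x).2.1) :=
    (measurable_fst.comp measurable_snd).comp H.meas
  have h3 : Measurable (fun x => res n (H.st x).2.2) :=
    (measurable_res n).comp ((measurable_snd.comp measurable_snd).comp H.meas)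
  exact h1.prodMk (h2.prodMk h3)

/-- the forest of level `n` -/
noncomputable def trn [BorelSpace ℤ_[2]] (hA : TreeAcyclic)
    (hm : ∀ w : W, Measurable (fun x : X₀ => w • x))
    (hf : ∀ (x : X₀) (w : W), w • x = x → w = 1) (n : ℕ) : MTree W X₀ where
  gr := grn H n
  orb := by
    intro x y h
    unfold grn at h
    rw [SimpleGraph.fromRel_adj] at h
    rcases h.2 with ⟨s, hs, -⟩ | ⟨s, hs, -⟩
    · exact ⟨gen s, hs⟩
    · exact ⟨gen s, by rw [hs, ← mul_smul, gen_mul_self, one_smul]⟩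
  meas := by
    intro γ
    have hset : {x : X₀ | (grn H n).Adj x (γ • x)} =
        {x | γ ≠ 1 ∧ ((∃ s, γ = gen s ∧ eS (bst H n x) s) ∨
          (∃ s, gen s * γ = 1 ∧ eS (bst H n (γ • x)) s))} := by
      ext x
      exact adj_iff H hf n x γ
    rw [hset]
    have hb := measurable_bst H n
    have hE : ∀ s : V, MeasurableSet {x : X₀ | eS (bst H n x) s} := fun s =>
      hb (MeasurableSet.of_discrete (s := {p : Bool × Bool × ℤ | eS p s}))
    have hE' : ∀ s : V, MeasurableSet {x : X₀ | eS (bst H n (γ • x)) s} := fun s =>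
      (hb.comp (hm γ)) (MeasurableSet.of_discrete (s := {p : Bool × Bool × ℤ | eS p s}))
    apply MeasurableSet.inter (MeasurableSet.const _)
    apply MeasurableSet.union
    · have : {x : X₀ | ∃ s, γ = gen s ∧ eS (bst H n x) s} =
          ⋃ s : V, {x | γ = gen s} ∩ {x | eS (bst H n x) s} := by
        ext x; simp
      change MeasurableSet {x : X₀ | ∃ s, γ = gen s ∧ eS (bst H n x) s}
      rw [this]
      exact MeasurableSet.iUnion fun s => (MeasurableSet.const _).inter (hE s)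
    · have : {x : X₀ | ∃ s, gen s * γ = 1 ∧ eS (bst H n (γ • x)) s} =
          ⋃ s : V, {x | gen s * γ = 1} ∩ {x | eS (bst H n (γ • x)) s} := by
        ext x; simp
      change MeasurableSet {x : X₀ | ∃ s, gen s * γ = 1 ∧ eS (bst H n (γ • x)) s}
      rw [this]
      exact MeasurableSet.iUnion fun s => (MeasurableSet.const _).inter (hE' s)
  acyc := grn_acyclic H hA hf n

/-- ORBIT PART of module X -/
theorem orbitPart [BorelSpace ℤ_[2]] (H : HSp X₀) (hA : TreeAcyclic) (hC : TreeConn)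
    (hm : ∀ w : W, Measurable (fun x : X₀ => w • x))
    (hf : ∀ (x : X₀) (w : W), w • x = x → w = 1) : Nonempty (ATSys W X₀) := by
  refine ⟨⟨trn H hA hm hf, ?_, ?_⟩⟩
  · intro n x y h
    change (grn H n).Reachable x y at h
    change (grn H (n + 1)).Reachable x y
    rw [reach_iff H hC hf] at h ⊢
    obtain ⟨w, ⟨h0, h1⟩, rfl⟩ := h
    refine ⟨w, ?_, rfl⟩
    rw [ht_bst] at h0 h1 ⊢
    have hpow : (2 : ℤ) ^ (n + 1 + 1) = 2 * 2 ^ (n + 1) := by ring
    have hP : (0 : ℤ) < 2 ^ (n + 1) := by positivity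
    rw [hpow]
    rcases res_succ n (H.st x).2.2 with h | h
    · rw [h]; constructor <;> linarith
    · rw [h]; constructor <;> linarith
  · intro x γ
    obtain ⟨n, h0, h1⟩ := res_exhaust (H.st x).2.2 (H.nint x)
      (ht ((H.st x).1, (H.st x).2.1, 0) γ)
    refine ⟨n, ?_⟩
    change (grn H n).Reachable x (γ • x)
    rw [reach_iff H hC hf]
    refine ⟨γ, ?_, rfl⟩
    rw [ht_bst]
    constructor <;> linarith

end

end Pool.Agent.AT
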