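import Pool.Agent.H171AT.AT_Defs

/-! Residues of 2-adic integers modulo `2^(n+1)`, as integers. -/

namespace Pool.Agent.AT

/-- the residue of `k` modulo `2^(n+1)` -/
noncomputable def res (n : ℕ) (k : ℤ_[2]) : ℤ := (k.appr (n + 1) : ℤ)

lemma res_nonneg (n : ℕ) (k : ℤ_[2]) : 0 ≤ res n k := by
  unfold res; positivity

lemma res_lt (n : ℕ) (k : ℤ_[2]) : res n k < 2 ^ (n + 1) := by
  have := PadicInt.appr_lt k (n + 1)
  unfold res
  exact_mod_cast this

lemma res_spec (n : ℕ) (k : ℤ_[2]) : (2 : ℤ_[2]) ^ (n + 1) ∣ k - (res n k : ℤ_[2]) := by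
  have := PadicInt.appr_spec (n + 1) k
  rw [Ideal.mem_span_singleton] at this
  unfold res
  exact_mod_cast this

lemma int_dvd_of (n : ℕ) (m : ℤ) (h : (2 : ℤ_[2]) ^ n ∣ (m : ℤ_[2])) : (2 : ℤ) ^ n ∣ m := by
  have h2 : ((m : ℤ_[2])) ∈ (Ideal.span {((2 : ℕ) : ℤ_[2]) ^ n} : Ideal ℤ_[2]) := by
    rw [Ideal.mem_span_singleton]; exact_mod_cast h
  have h3 := (PadicInt.norm_le_pow_iff_mem_span_pow (p := 2) (m : ℤ_[2]) n).2 h2
  have h4 := (PadicInt.norm_int_le_pow_iff_dvd (p := 2)).1 h3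
  exact_mod_cast h4

lemma res_unique (n : ℕ) (k : ℤ_[2]) (m : ℤ) (h0 : 0 ≤ m) (h1 : m < 2 ^ (n + 1))
    (hd : (2 : ℤ_[2]) ^ (n + 1) ∣ k - (m : ℤ_[2])) : res n k = m := by
  have h2 := res_spec n k
  have h3 : (2 : ℤ_[2]) ^ (n + 1) ∣ ((m - res n k : ℤ) : ℤ_[2]) := by
    have := dvd_sub h2 hd
    push_cast
    convert this using 1
    ring
  have h4 := int_dvd_of _ _ h3
  obtain ⟨c, hc⟩ := h4
  have h5 := res_nonneg n k
  have h6 := res_lt n k
  have hP : (0 : ℤ) < 2 ^ (n + 1) := by positivity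
  have hc0 : c = 0 := by
    have h7 : (2 : ℤ) ^ (n + 1) * c < 2 ^ (n + 1) * 1 := by linarith
    have h8 : (2 : ℤ) ^ (n + 1) * (-1) < 2 ^ (n + 1) * c := by linarith
    have := lt_of_mul_lt_mul_left h7 hP.le
    have := lt_of_mul_lt_mul_left h8 hP.le
    omega
  rw [hc0] at hc
  linarith

lemma res_add (n : ℕ) (k : ℤ_[2]) (j : ℤ) (h0 : 0 ≤ res n k + j)
    (h1 : res n k + j < 2 ^ (n + 1)) : res n (k + (j : ℤ_[2])) = res n k + j := by
  apply res_unique _ _ _ h0 h1
  have := res_spec n k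
  push_cast
  convert this using 1
  ring

lemma res_succ (n : ℕ) (k : ℤ_[2]) :
    res (n + 1) k = res n k ∨ res (n + 1) k = res n k + 2 ^ (n + 1) := by
  have h1 := res_spec n k
  have h2 := res_spec (n + 1) k
  have h3 : (2 : ℤ_[2]) ^ (n + 1) ∣ ((res (n + 1) k - res n k : ℤ) : ℤ_[2]) := by
    have h4 : (2 : ℤ_[2]) ^ (n + 1) ∣ k - (res (n + 1) k : ℤ_[2]) :=
      dvd_trans (pow_dvd_pow _ (Nat.le_succ _)) h2
    have := dvd_sub h1 h4
    push_cast
    convert this using 1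
    ring
  obtain ⟨c, hc⟩ := int_dvd_of _ _ h3
  have h5 := res_nonneg n k
  have h6 := res_lt n k
  have h7 := res_nonneg (n + 1) k
  have h8 := res_lt (n + 1) k
  have hP : (0 : ℤ) < 2 ^ (n + 1) := by positivity
  have hpow : (2 : ℤ) ^ (n + 1 + 1) = 2 * 2 ^ (n + 1) := by ring
  rw [hpow] at h8
  have hc0 : c = 0 ∨ c = 1 := by
    have h7 : (2 : ℤ) ^ (n + 1) * c < 2 ^ (n + 1) * 2 := by linarith
    have h8 : (2 : ℤ) ^ (n + 1) * (-1) < 2 ^ (n + 1) * c := by linarith
    have := lt_of_mul_lt_mul_left h7 hP.le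
    have := lt_of_mul_lt_mul_left h8 hP.le
    omega
  rcases hc0 with hc0 | hc0
  · left; rw [hc0] at hc; linarith
  · right; rw [hc0] at hc; linarith

lemma eq_zero_of_dvd (x : ℤ_[2]) (h : ∀ n : ℕ, ∃ m, n ≤ m ∧ (2 : ℤ_[2]) ^ m ∣ x) : x = 0 := by
  by_contra hx
  have h1 : 0 < ‖x‖ := norm_pos_iff.2 hx
  obtain ⟨n, hn⟩ := exists_pow_lt_of_lt_one h1 (show (1 / 2 : ℝ) < 1 by norm_num)
  obtain ⟨m, hm, hd⟩ := h n
  have h2 : x ∈ (Ideal.span {((2 : ℕ) : ℤ_[2]) ^ m} : Ideal ℤ_[2]) := by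
    rw [Ideal.mem_span_singleton]; exact_mod_cast hd
  have h3 := (PadicInt.norm_le_pow_iff_mem_span_pow (p := 2) x m).2 h2
  have h4 : ((2 : ℕ) : ℝ) ^ (-(m : ℤ)) = (1 / 2 : ℝ) ^ m := by
    rw [zpow_neg, zpow_natCast, one_div, inv_pow]; norm_num
  rw [h4] at h3
  have h5 : (1 / 2 : ℝ) ^ m ≤ (1 / 2) ^ n :=
    pow_le_pow_of_le_one (by norm_num) (by norm_num) hm
  linarith

lemma res_exhaust (k : ℤ_[2]) (hk : ∀ m : ℤ, k ≠ (m : ℤ_[2])) (j : ℤ) :
    ∃ n, 0 ≤ res n k + j ∧ res n k + j < 2 ^ (n + 1) := by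
  by_contra hcon
  push Not at hcon
  -- `2^(n+1)` is eventually larger than `|j|`
  obtain ⟨n0, hn0⟩ : ∃ n0 : ℕ, |j| < (2 : ℤ) ^ n0 := by
    refine ⟨j.natAbs, ?_⟩
    have : j.natAbs < 2 ^ j.natAbs := Nat.lt_two_pow_self
    rw [Int.abs_eq_natAbs]
    exact_mod_cast this
  have hbig : ∀ n, n0 ≤ n → |j| < (2 : ℤ) ^ (n + 1) := fun n hn =>
    lt_of_lt_of_le hn0 (pow_le_pow_right₀ (by norm_num) (by omega))
  by_cases hj : 0 ≤ j
  · have habs : |j| = j := abs_of_nonneg hj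
    -- residues are near the top
    have h1 : ∀ n, (2 : ℤ) ^ (n + 1) ≤ res n k + j := fun n =>
      hcon n (by have := res_nonneg n k; linarith)
    have hstep : ∀ n, n0 ≤ n →
        (2 : ℤ) ^ (n + 1 + 1) - res (n + 1) k = 2 ^ (n + 1) - res n k := by
      intro n hn
      have hb := hbig n hn
      rw [habs] at hb
      have h2 := h1 (n + 1)
      have hpow : (2 : ℤ) ^ (n + 1 + 1) = 2 * 2 ^ (n + 1) := by ring
      have h6 := res_lt n k
      rcases res_succ n k with h3 | h3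
      · exfalso
        rw [h3, hpow] at h2
        linarith
      · rw [h3, hpow]; ring
    have hconst : ∀ n, n0 ≤ n → (2 : ℤ) ^ (n + 1) - res n k = 2 ^ (n0 + 1) - res n0 k := by
      intro n hn
      induction n, hn using Nat.le_induction with
      | base => rfl
      | succ n hn ih => rw [hstep n hn, ih]
    apply hk (-(2 ^ (n0 + 1) - res n0 k))
    rw [← sub_eq_zero]
    apply eq_zero_of_dvd
    intro n
    refine ⟨max n n0 + 1, by omega, ?_⟩
    have h2 := res_spec (max n n0) k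
    have h3 := hconst (max n n0) (le_max_right _ _)
    rw [← h3]
    have h4 : k - ((-((2 : ℤ) ^ (max n n0 + 1) - res (max n n0) k) : ℤ) : ℤ_[2]) =
        (k - (res (max n n0) k : ℤ_[2])) + (2 : ℤ_[2]) ^ (max n n0 + 1) := by
      push_cast; ring
    rw [h4]
    exact dvd_add h2 dvd_rfl
  · push Not at hj
    have habs : |j| = -j := abs_of_neg hj
    have h1 : ∀ n, res n k + j < 0 := fun n => by
      by_contra h
      push Not at h
      have h2 := hcon n h
      have h3 := res_lt n k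
      linarith
    have hstep : ∀ n, n0 ≤ n → res (n + 1) k = res n k := by
      intro n hn
      have hb := hbig n hn
      rw [habs] at hb
      have h2 := h1 (n + 1)
      have h6 := res_nonneg n k
      rcases res_succ n k with h3 | h3
      · exact h3
      · exfalso
        rw [h3] at h2
        linarith
    have hconst : ∀ n, n0 ≤ n → res n k = res n0 k := by
      intro n hn
      induction n, hn using Nat.le_induction with
      | base => rfl
      | succ n hn ih => rw [hstep n hn, ih]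
    apply hk (res n0 k)
    rw [← sub_eq_zero]
    apply eq_zero_of_dvd
    intro n
    refine ⟨max n n0 + 1, by omega, ?_⟩
    have h2 := res_spec (max n n0) k
    rwa [hconst (max n n0) (le_max_right _ _)] at h2

lemma continuous_res (n : ℕ) : Continuous (res n) := by
  rw [Metric.continuous_iff]
  intro k ε hε
  refine ⟨(2 : ℝ) ^ (-((n + 1 : ℕ) : ℤ)), by positivity, ?_⟩
  intro y hy
  have h1 : res n y = res n k := by
    apply res_unique _ _ _ (res_nonneg n k) (res_lt n k)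
    have h2 : (2 : ℤ_[2]) ^ (n + 1) ∣ y - k := by
      have h3 : ‖y - k‖ ≤ ((2 : ℕ) : ℝ) ^ (-((n + 1 : ℕ) : ℤ)) := by
        rw [dist_eq_norm] at hy
        exact_mod_cast hy.le
      have h4 := (PadicInt.norm_le_pow_iff_mem_span_pow (p := 2) (y - k) (n + 1)).1 h3
      rw [Ideal.mem_span_singleton] at h4
      exact_mod_cast h4
    have h5 := dvd_add h2 (res_spec n k)
    convert h5 using 1
    ring
  rw [h1, dist_self]
  exact hε

lemma measurable_res [MeasurableSpace ℤ_[2]] [BorelSpace ℤ_[2]] (n : ℕ) :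
    Measurable (res n) := (continuous_res n).measurable

end Pool.Agent.AT
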