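import Pool.Agent.H171AT.AT_Geo2
import Pool.Agent.H171AT.AT_T633a

set_option autoImplicit false

open Matrix

namespace Pool.Agent.AT.T633

open Pool.Agent.AT

theorem form_eq (x y : Fin 4 → ℝ) : form x y = x ⬝ᵥ (J *ᵥ y) := by
  simp [form, J, dotProduct, Fin.sum_univ_four, Matrix.mulVec_diagonal]
  ring

theorem form_mulVec {g : Mat} (hg : gᵀ * J * g = J) (x y : Fin 4 → ℝ) :
    form (g *ᵥ x) (g *ᵥ y) = form x y := by
  rw [form_eq, form_eq, Matrix.mulVec_mulVec, Matrix.dotProduct_mulVec, Matrix.dotProduct_mulVec,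
    Matrix.vecMul_mulVec, ← Matrix.mul_assoc, hg]

theorem pos_of_cs (a0 a1 a2 a3 x0 x1 x2 x3 : ℝ) (ha : a0 ^ 2 + a1 ^ 2 + a2 ^ 2 - a3 ^ 2 = -1)
    (hx : x0 ^ 2 + x1 ^ 2 + x2 ^ 2 - x3 ^ 2 = -1) (ha3 : 0 < a3) (hx3 : 0 < x3) :
    0 < a0 * x0 + a1 * x1 + a2 * x2 + a3 * x3 := by
  have hcs : (a0 * x0 + a1 * x1 + a2 * x2) ^ 2 ≤
      (a0 ^ 2 + a1 ^ 2 + a2 ^ 2) * (x0 ^ 2 + x1 ^ 2 + x2 ^ 2) := by
    nlinarith [sq_nonneg (a0 * x1 - a1 * x0), sq_nonneg (a0 * x2 - a2 * x0),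
      sq_nonneg (a1 * x2 - a2 * x1)]
  have hA : a0 ^ 2 + a1 ^ 2 + a2 ^ 2 = a3 ^ 2 - 1 := by linarith
  have hX : x0 ^ 2 + x1 ^ 2 + x2 ^ 2 = x3 ^ 2 - 1 := by linarith
  rw [hA, hX] at hcs
  have hA0 : 0 ≤ a3 ^ 2 - 1 := by rw [← hA]; positivity
  have hX0 : 0 ≤ x3 ^ 2 - 1 := by rw [← hX]; positivity
  have hlt : (a0 * x0 + a1 * x1 + a2 * x2) ^ 2 < (a3 * x3) ^ 2 := by
    nlinarith [hcs, hA0, hX0]
  have := abs_lt_of_sq_lt_sq hlt (by positivity)
  have := (abs_lt.1 this).1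
  linarith

/-- Lorentz matrices preserve the hyperboloid -/
theorem h3_mulVec (g : G) {x : Fin 4 → ℝ} (hx : x ∈ H3) : g.mat *ᵥ x ∈ H3 := by
  refine ⟨by rw [form_mulVec g.lor]; exact hx.1, ?_⟩
  have hr := lor_row g.lor
  have h := pos_of_cs (g.mat 3 0) (g.mat 3 1) (g.mat 3 2) (g.mat 3 3) (x 0) (x 1) (x 2) (x 3)
    (by linarith) (by have := hx.1; unfold form at this; linarith [this]) g.pos hx.2
  simpa [Matrix.mulVec, dotProduct, Fin.sum_univ_four] using h

theorem e0_mem : e0 ∈ H3 := by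
  constructor
  · simp [form, e0]
  · simp [e0]

/-- the action of the Coxeter group on the hyperboloid -/
noncomputable instance : MulAction W H3 where
  smul w x := ⟨(bb w).mat *ᵥ x.1, h3_mulVec _ x.2⟩
  one_smul x := by
    apply Subtype.ext
    change (bb 1).mat *ᵥ x.1 = x.1
    simp
  mul_smul w w' x := by
    apply Subtype.ext
    change (bb (w * w')).mat *ᵥ x.1 = (bb w).mat *ᵥ ((bb w').mat *ᵥ x.1)
    rw [map_mul, G.mat_mul, Matrix.mulVec_mulVec]

theorem smul_val (w : W) (x : H3) : (w • x).1 = (bb w).mat *ᵥ x.1 := rfl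

theorem refl_mulVec (s : V) (x : Fin 4 → ℝ) :
    (refl s).mat *ᵥ x = x - form x (root s) • root s := by
  change reflMat s *ᵥ x = _
  rw [reflMat_eq, Matrix.sub_mulVec, Matrix.one_mulVec, Matrix.vecMulVec_mulVec]
  congr 1
  funext i
  simp [form, coroot, dotProduct, Fin.sum_univ_four]
  ring

theorem bb_simple (s : V) : bb (cs.simple s) = refl s := bb_gen s

theorem smul_simple_val (s : V) (x : H3) :
    (cs.simple s • x).1 = x.1 - form x.1 (root s) • root s := by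
  rw [smul_val, bb_simple, refl_mulVec]

theorem form_smul_simple (s t : V) (x : H3) :
    form (cs.simple s • x).1 (root t) =
      form x.1 (root t) - form x.1 (root s) * form (root s) (root t) := by
  rw [smul_simple_val]
  simp only [form, Pi.sub_apply, Pi.smul_apply, smul_eq_mul]
  ring

/-- integral sign -/
def sz (b : Bool) : ℤ := if b then 1 else -1

theorem sg_eq (b : Bool) : sg b = (sz b : ℝ) := by cases b <;> simp [sg, sz]

theorem form_root (s t : V) : form (root s) (root t) = 2 - 2 * (hammingDist s t : ℝ) := by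
  have h : ∀ s t : V, sz (s 0) * sz (t 0) + sz (s 1) * sz (t 1) + sz (s 2) * sz (t 2) - 1 =
      2 - 2 * (hammingDist s t : ℤ) := by decide +kernel
  have h2 := congrArg (Int.cast : ℤ → ℝ) (h s t)
  push_cast at h2
  simp only [form, root, sg_eq]
  simp
  linarith

theorem hamming_cases : ∀ s t : V, s ≠ t →
    hammingDist s t = 1 ∨ hammingDist s t = 2 ∨ hammingDist s t = 3 := by
  decide +kernel

/-- for two non adjacent vertices `s ≠ t` of the cube the sum of roots is future causal -/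
theorem sum_neg {s t : V} (hst : s ≠ t) (h : hammingDist s t ≠ 1) {x : Fin 4 → ℝ}
    (hx : x ∈ H3) : form x (root s) + form x (root t) < 0 := by
  have hq := hx.1
  have hp := hx.2
  unfold form at hq
  have hd : ∀ s t : V, s ≠ t → hammingDist s t ≠ 1 →
      ((sz (s 0) + sz (t 0)) ^ 2 + (sz (s 1) + sz (t 1)) ^ 2 + (sz (s 2) + sz (t 2)) ^ 2 ≤ 4) := by
    decide +kernel
  have h1 := hd s t hst h
  have h1' : (sg (s 0) + sg (t 0)) ^ 2 + (sg (s 1) + sg (t 1)) ^ 2 + (sg (s 2) + sg (t 2)) ^ 2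
      ≤ 4 := by
    simp only [sg_eq]
    exact_mod_cast h1
  have e : form x (root s) + form x (root t) = x 0 * (sg (s 0) + sg (t 0)) +
      x 1 * (sg (s 1) + sg (t 1)) + x 2 * (sg (s 2) + sg (t 2)) - 2 * x 3 := by
    simp [form, root]
    ring
  rw [e]
  set a := sg (s 0) + sg (t 0)
  set c := sg (s 1) + sg (t 1)
  set d := sg (s 2) + sg (t 2)
  have hcs : (x 0 * a + x 1 * c + x 2 * d) ^ 2 ≤
      (x 0 ^ 2 + x 1 ^ 2 + x 2 ^ 2) * (a ^ 2 + c ^ 2 + d ^ 2) := by
    nlinarith [sq_nonneg (x 0 * c - x 1 * a), sq_nonneg (x 0 * d - x 2 * a),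
      sq_nonneg (x 1 * d - x 2 * c)]
  have hX : x 0 ^ 2 + x 1 ^ 2 + x 2 ^ 2 = x 3 ^ 2 - 1 := by linarith
  have hX0 : 0 ≤ x 0 ^ 2 + x 1 ^ 2 + x 2 ^ 2 := by positivity
  have hlt : (x 0 * a + x 1 * c + x 2 * d) ^ 2 < (2 * x 3) ^ 2 := by
    have : (x 0 ^ 2 + x 1 ^ 2 + x 2 ^ 2) * (a ^ 2 + c ^ 2 + d ^ 2) ≤
        (x 0 ^ 2 + x 1 ^ 2 + x 2 ^ 2) * 4 := mul_le_mul_of_nonneg_left h1' hX0
    rw [hX] at this hcs
    nlinarith
  have := abs_lt_of_sq_lt_sq hlt (by positivity)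
  have := (abs_lt.1 this).2
  linarith

theorem cubeM_eq (s t : V) :
    cubeM s t = if s = t then 1 else if hammingDist s t = 1 then 2 else 0 := rfl

theorem hM (s t : V) (h : s ≠ t) : cubeM s t = 2 ∨ cubeM s t = 0 := by
  rw [cubeM_eq, if_neg h]
  split_ifs <;> simp

theorem hf1 (s : V) (x : H3) :
    form (cs.simple s • x).1 (root s) = - form x.1 (root s) := by
  rw [form_smul_simple, form_root]
  simp
  ring

theorem hf2 (s t : V) (x : H3) (h : s ≠ t) (hm : cubeM s t = 2) :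
    form (cs.simple s • x).1 (root t) = form x.1 (root t) := by
  have hd : hammingDist s t = 1 := by
    rw [cubeM_eq, if_neg h] at hm
    by_contra hc
    rw [if_neg hc] at hm
    exact absurd hm (by decide)
  rw [form_smul_simple, form_root, hd]
  simp

theorem hf3 (s t : V) (x : H3) (h : s ≠ t) (hm : cubeM s t = 0)
    (hx : form x.1 (root s) < 0) : form (cs.simple s • x).1 (root t) < 0 := by
  have hd : hammingDist s t ≠ 1 := by
    intro hc
    rw [cubeM_eq, if_neg h, if_pos hc] at hm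
    exact absurd hm (by decide)
  have hs := sum_neg h hd x.2
  rw [form_smul_simple, form_root]
  rcases hamming_cases s t h with h1 | h1 | h1
  · exact absurd h1 hd
  · rw [h1]
    push_cast
    linarith
  · rw [h1]
    push_cast
    linarith

theorem h0 (s : V) : form e0 (root s) < 0 := by
  simp [form, e0, root]

/-- Tits lemma. -/
theorem tits_cube (w : W) (s : V) :
    (cs.IsLeftDescent w s → 0 < form ((bb w).mat *ᵥ e0) (root s)) ∧
    (¬ cs.IsLeftDescent w s → form ((bb w).mat *ᵥ e0) (root s) < 0) :=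
  AT633.tits cs (fun (s : V) (x : H3) => form x.1 (root s)) hM hf1 hf2 hf3 ⟨e0, e0_mem⟩ h0 _ w
    rfl s

/-- stabiliser of the base point is trivial -/
theorem eq_one_of_mulVec_e0 (w : W) (hw : (bb w).mat *ᵥ e0 = e0) : w = 1 := by
  refine AT633.eq_one_of_signs cs (fun (s : V) (x : H3) => form x.1 (root s)) hM hf1 hf2 hf3
    ⟨e0, e0_mem⟩ h0 w ?_
  intro s
  change form ((bb w).mat *ᵥ e0) (root s) ≤ 0
  rw [hw]
  exact (h0 s).le

theorem stT1 : StT1 := by
  unfold StT1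
  rw [injective_iff_map_eq_one]
  intro w hw
  apply eq_one_of_mulVec_e0
  rw [hw]
  simp

theorem stT2 : StT2 := by
  intro w
  induction w using cs.simple_induction_left with
  | one =>
    intro i j
    rw [map_one, G.mat_one, Matrix.one_apply]
    split_ifs
    · exact ⟨1, by simp⟩
    · exact ⟨0, by simp⟩
  | mul_simple_left w s h =>
    intro i j
    have hr : ∀ i j, ∃ n : ℤ, (refl s).mat i j = n := by
      intro i j
      change ∃ n : ℤ, reflMat s i j = n
      have hroot : ∀ i, ∃ n : ℤ, root s i = n := by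
        intro i
        fin_cases i
        · exact ⟨sz (s 0), by simp [root, sg_eq]⟩
        · exact ⟨sz (s 1), by simp [root, sg_eq]⟩
        · exact ⟨sz (s 2), by simp [root, sg_eq]⟩
        · exact ⟨1, by simp [root]⟩
      obtain ⟨p, hp⟩ := hroot i
      obtain ⟨q, hq⟩ := hroot j
      refine ⟨(if i = j then 1 else 0) - p * (if j = 3 then - q else q), ?_⟩
      simp only [reflMat, Matrix.of_apply, hp, hq]
      push_cast
      rfl
    rw [map_mul, bb_simple, G.mat_mul, Matrix.mul_apply, Fin.sum_univ_four]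
    obtain ⟨p0, hp0⟩ := hr i 0
    obtain ⟨p1, hp1⟩ := hr i 1
    obtain ⟨p2, hp2⟩ := hr i 2
    obtain ⟨p3, hp3⟩ := hr i 3
    obtain ⟨q0, hq0⟩ := h 0 j
    obtain ⟨q1, hq1⟩ := h 1 j
    obtain ⟨q2, hq2⟩ := h 2 j
    obtain ⟨q3, hq3⟩ := h 3 j
    refine ⟨p0 * q0 + p1 * q1 + p2 * q2 + p3 * q3, ?_⟩
    rw [hp0, hp1, hp2, hp3, hq0, hq1, hq2, hq3]
    push_cast
    ring

end Pool.Agent.AT.T633
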