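import Pool.Agent.H171AT.AT_T633e

set_option autoImplicit false

open Matrix

namespace Pool.Agent.AT.T633

open Pool.Agent.AT

theorem arith (a b c t : ℝ) (hb0 : 0 ≤ b) (hc0 : 0 ≤ c) (hab : b ≤ a) (hac : c ≤ a)
    (ht : 0 < t) (h : t ^ 2 = 1 + a ^ 2 + b ^ 2 + c ^ 2) (hs : a + b + c ≤ t) : t - a ≤ 1 := by
  have ha0 : 0 ≤ a := hb0.trans hab
  have ht1 : 1 ≤ t := by nlinarith [sq_nonneg a, sq_nonneg b, sq_nonneg c]
  have h1 : (t - a) * t ≤ 1 := by
    have h2 : a * (a + b + c) ≤ a * t := mul_le_mul_of_nonneg_left hs ha0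
    have h3 : b * b ≤ b * a := mul_le_mul_of_nonneg_left hab hb0
    have h4 : c * c ≤ c * a := mul_le_mul_of_nonneg_left hac hc0
    nlinarith
  have h5 : 0 ≤ t - a := by linarith
  nlinarith

theorem mem_cusp {z : Fin 4 → ℝ} (hz : z ∈ H3) (h : |z 0| + |z 1| + |z 2| ≤ z 3) :
    z ∈ Cusp := by
  refine ⟨hz, ?_⟩
  have hq : z 3 ^ 2 = 1 + |z 0| ^ 2 + |z 1| ^ 2 + |z 2| ^ 2 := by
    have := hz.1
    unfold form at this
    rw [sq_abs, sq_abs, sq_abs]
    linarith [this]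
  have hp := hz.2
  have key : ∀ i : Fin 3, (z 3 - |z i.castSucc| ≤ 1) →
      ∃ (i : Fin 3) (e : ℝ), (e = 1 ∨ e = -1) ∧
        (∑ j : Fin 3, |z j.castSucc|) - |z i.castSucc| ≤ z 3 - e * z i.castSucc ∧
        z 3 - e * z i.castSucc ≤ 1 := by
    intro i hi
    have hsum : (∑ j : Fin 3, |z j.castSucc|) ≤ z 3 := by
      rw [Fin.sum_univ_three]
      exact h
    rcases le_total 0 (z i.castSucc) with h0 | h0
    · refine ⟨i, 1, Or.inl rfl, ?_, ?_⟩
      · rw [one_mul]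
        rw [abs_of_nonneg h0]
        linarith
      · rw [abs_of_nonneg h0] at hi
        linarith
    · refine ⟨i, -1, Or.inr rfl, ?_, ?_⟩
      · rw [abs_of_nonpos h0]
        linarith
      · rw [abs_of_nonpos h0] at hi
        linarith
  rcases le_total (|z 1|) (|z 0|) with h1 | h1
  · rcases le_total (|z 2|) (|z 0|) with h2 | h2
    · exact key 0 (arith _ _ _ _ (abs_nonneg (z 1)) (abs_nonneg (z 2)) h1 h2 hp hq h)
    · exact key 2 (arith |z 2| |z 0| |z 1| (z 3) (abs_nonneg (z 0)) (abs_nonneg (z 1)) h2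
        (h1.trans h2) hp (by linarith) (by linarith))
  · rcases le_total (|z 2|) (|z 1|) with h2 | h2
    · exact key 1 (arith |z 1| |z 0| |z 2| (z 3) (abs_nonneg (z 0)) (abs_nonneg (z 2)) h1 h2 hp
        (by linarith) (by linarith))
    · exact key 2 (arith |z 2| |z 0| |z 1| (z 3) (abs_nonneg (z 0)) (abs_nonneg (z 1))
        (h1.trans h2) h2 hp (by linarith) (by linarith))

/-- the linear functional of an integral row -/
def val (x : Fin 4 → ℝ) (r : Fin 4 → ℤ) : ℝ :=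
  (r 0 : ℝ) * x 0 + r 1 * x 1 + r 2 * x 2 + r 3 * x 3

/-- integral rows occurring in `W` with small value -/
def rows (x : Fin 4 → ℝ) : Set (Fin 4 → ℤ) :=
  {r | (∃ w : W, ∀ j, (bb w).mat 3 j = r j) ∧ val x r ≤ x 3}

theorem rows_finite {x : Fin 4 → ℝ} (hx : x ∈ H3) : (rows x).Finite := by
  have hq : x 0 ^ 2 + x 1 ^ 2 + x 2 ^ 2 = x 3 ^ 2 - 1 := by
    have := hx.1
    unfold form at this
    linarith [this]
  have hp := hx.2
  have hq0 : 0 ≤ x 3 ^ 2 - 1 := by rw [← hq]; positivity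
  set ρ := Real.sqrt (x 3 ^ 2 - 1) with hρ
  have hρ2 : ρ ^ 2 = x 3 ^ 2 - 1 := Real.sq_sqrt hq0
  have hρ0 : 0 ≤ ρ := Real.sqrt_nonneg _
  have hρx : ρ < x 3 := by
    apply lt_of_pow_lt_pow_left₀ 2 hp.le
    rw [hρ2]
    linarith
  obtain ⟨N, hN⟩ := exists_nat_ge (x 3 / (x 3 - ρ))
  refine Set.Finite.subset (Set.finite_Icc (fun _ => -(N : ℤ)) (fun _ => (N : ℤ))) ?_
  rintro r ⟨⟨w, hw⟩, hv⟩
  have hrow := lor_row (bb w).lor
  have hpos := (bb w).pos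
  rw [hw, hw, hw, hw] at hrow
  rw [hw] at hpos
  unfold val at hv
  have hcs : ((r 0 : ℝ) * x 0 + r 1 * x 1 + r 2 * x 2) ^ 2 ≤
      ((r 0 : ℝ) ^ 2 + (r 1 : ℝ) ^ 2 + (r 2 : ℝ) ^ 2) * (x 0 ^ 2 + x 1 ^ 2 + x 2 ^ 2) := by
    nlinarith [sq_nonneg ((r 0 : ℝ) * x 1 - r 1 * x 0), sq_nonneg ((r 0 : ℝ) * x 2 - r 2 * x 0),
      sq_nonneg ((r 1 : ℝ) * x 2 - r 2 * x 1)]
  have hle : ((r 0 : ℝ) * x 0 + r 1 * x 1 + r 2 * x 2) ^ 2 ≤ ((r 3 : ℝ) * ρ) ^ 2 := by
    rw [mul_pow, hρ2]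
    refine hcs.trans ?_
    rw [hq]
    apply mul_le_mul_of_nonneg_right _ hq0
    linarith
  have habs := (abs_le_of_sq_le_sq' hle (by positivity)).1
  have hr3 : (r 3 : ℝ) * (x 3 - ρ) ≤ x 3 := by nlinarith
  have hr3' : (r 3 : ℝ) ≤ N := by
    refine le_trans ?_ hN
    rw [le_div_iff₀ (by linarith)]
    exact hr3
  have hb : ∀ j, |(r j : ℝ)| ≤ N := by
    intro j
    refine le_trans ?_ hr3'
    apply abs_le_of_sq_le_sq _ hpos.le
    fin_cases j
    · simp only [Fin.zero_eta, Fin.isValue]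
      nlinarith [sq_nonneg (r 1 : ℝ), sq_nonneg (r 2 : ℝ)]
    · simp only [Fin.mk_one, Fin.isValue]
      nlinarith [sq_nonneg (r 0 : ℝ), sq_nonneg (r 2 : ℝ)]
    · simp only [Fin.reduceFinMk, Fin.isValue]
      nlinarith [sq_nonneg (r 0 : ℝ), sq_nonneg (r 1 : ℝ)]
    · exact le_rfl
  rw [Set.mem_Icc]
  constructor
  · intro j
    have := (abs_le.1 (hb j)).1
    exact_mod_cast this
  · intro j
    have := (abs_le.1 (hb j)).2
    exact_mod_cast this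

theorem mulVec_three (g : Mat) (x : Fin 4 → ℝ) :
    (g *ᵥ x) 3 = g 3 0 * x 0 + g 3 1 * x 1 + g 3 2 * x 2 + g 3 3 * x 3 := by
  simp [Matrix.mulVec, dotProduct, Fin.sum_univ_four]

theorem exists_row (w : W) : ∃ r : Fin 4 → ℤ, ∀ j, (bb w).mat 3 j = r j := by
  choose r hr using fun j => stT2 w 3 j
  exact ⟨r, hr⟩

theorem val_eq {x : Fin 4 → ℝ} {w : W} {r : Fin 4 → ℤ} (hr : ∀ j, (bb w).mat 3 j = r j) :
    ((bb w).mat *ᵥ x) 3 = val x r := by
  rw [mulVec_three, hr, hr, hr, hr]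
  rfl

theorem stT3 : StT3 := by
  intro x hx
  have hne : (rows x).Nonempty := by
    obtain ⟨r, hr⟩ := exists_row 1
    refine ⟨r, ⟨1, hr⟩, ?_⟩
    rw [← val_eq hr]
    simp
  obtain ⟨r, ⟨⟨w, hw⟩, hv⟩, hmin⟩ := Set.exists_min_image (rows x) (val x) (rows_finite hx) hne
  have hmin' : ∀ w' : W, ((bb w).mat *ᵥ x) 3 ≤ ((bb w').mat *ᵥ x) 3 := by
    intro w'
    obtain ⟨r', hr'⟩ := exists_row w'
    rw [val_eq hw, val_eq hr']
    by_cases hc : val x r' ≤ x 3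
    · exact hmin r' ⟨⟨w', hr'⟩, hc⟩
    · push_neg at hc
      linarith
  refine ⟨w, ?_⟩
  set z := (bb w).mat *ᵥ x with hz
  have hz3 : z ∈ H3 := h3_mulVec _ hx
  have hside : ∀ s : V, form z (root s) ≤ 0 := by
    intro s
    have h := hmin' (cs.simple s * w)
    rw [map_mul, bb_simple, G.mat_mul, ← Matrix.mulVec_mulVec, refl_mulVec] at h
    have h3 : (z - form z (root s) • root s) 3 = z 3 - form z (root s) := by
      simp [root]
    rw [← hz, h3] at h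
    linarith
  apply mem_cusp hz3
  have h := hside ![decide (0 ≤ z 0), decide (0 ≤ z 1), decide (0 ≤ z 2)]
  have hsg : ∀ t : ℝ, t * sg (decide (0 ≤ t)) = |t| := by
    intro t
    unfold sg
    rcases le_or_gt 0 t with h | h
    · simp [h, abs_of_nonneg h]
    · simp [not_le.2 h, abs_of_neg h]
  simp only [form, root] at h
  simp [hsg] at h
  linarith

end Pool.Agent.AT.T633
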