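import Pool.Agent.H171AT.AT_Defs

/-! Module C, part 2: the blocks are connected (helper246). -/

set_option autoImplicit false

namespace Pool.Agent.AT.TC2

lemma gen_mul_gen (s : V) (w : W) : gen s * (gen s * w) = w := by
  unfold gen
  exact cs.simple_mul_simple_cancel_left s

lemma gen_comm (s t : V) (h : hammingDist s t = 1) : gen s * gen t = gen t * gen s := by
  have hne : s ≠ t := by
    rintro rfl
    simp at h
  have hM : cubeM.M s t = 2 := by simp [cubeM, hne, h]
  have h1 : (gen s * gen t) ^ 2 = 1 := by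
    have := cs.simple_mul_simple_pow s t
    rw [show cubeM s t = cubeM.M s t from rfl, hM] at this
    exact this
  have hs : gen s * gen s = 1 := cs.simple_mul_simple_self s
  have ht' : gen t * gen t = 1 := cs.simple_mul_simple_self t
  have hsi : (gen s)⁻¹ = gen s := inv_eq_of_mul_eq_one_right hs
  have hti : (gen t)⁻¹ = gen t := inv_eq_of_mul_eq_one_right ht'
  have h2 : (gen s * gen t)⁻¹ = gen s * gen t := by
    rw [pow_two] at h1
    exact inv_eq_of_mul_eq_one_right h1
  rw [mul_inv_rev, hsi, hti] at h2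
  exact h2.symm

lemma stt_gen_mul (q : Bool × Bool × ℤ) (s : V) (w : W) :
    stt q (gen s * w) = step ℤ s (stt q w) := by
  unfold stt
  rw [map_mul, Equiv.Perm.mul_apply, θ_gen]

lemma ht_gen_mul (q : Bool × Bool × ℤ) (s : V) (w : W) :
    ht q (gen s * w) = ht q w + if asc (stt q w).1 (stt q w).2.1 s then 1 else -1 := by
  unfold ht
  rw [stt_gen_mul]
  rfl

/-- the sign of a generator does not change under a commuting generator -/
lemma asc_gen_comm (q : Bool × Bool × ℤ) (s t : V) (h : hammingDist s t = 1) (w : W) :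
    asc (stt q (gen s * w)).1 (stt q (gen s * w)).2.1 t = asc (stt q w).1 (stt q w).2.1 t := by
  rw [stt_gen_mul]
  show asc (if ev s then (!(stt q w).1) else (stt q w).1)
    (if ev s then (stt q w).2.1 else (!(stt q w).2.1)) t = _
  generalize (stt q w).1 = a
  generalize (stt q w).2.1 = b
  revert a b s t; decide

/-- the sign of a generator is reversed by itself -/
lemma asc_gen_self (q : Bool × Bool × ℤ) (s : V) (w : W) :
    asc (stt q (gen s * w)).1 (stt q (gen s * w)).2.1 s = !asc (stt q w).1 (stt q w).2.1 s := by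
  rw [stt_gen_mul]
  show asc (if ev s then (!(stt q w).1) else (stt q w).1)
    (if ev s then (stt q w).2.1 else (!(stt q w).2.1)) s = _
  generalize (stt q w).1 = a
  generalize (stt q w).2.1 = b
  revert a b s; decide

/-- distinguished descending (`ε = true`) or ascending (`ε = false`) generator -/
def ldd (ε a b : Bool) : V := if ε then ldesc a b else ldesc (!a) (!b)

/-- descending or ascending path -/
def pdd (ε a b : Bool) (i : Fin 4) : V := if ε then dpath a b i else dpath (!a) (!b) i

lemma ldd_asc (ε a b : Bool) : asc a b (ldd ε a b) = !ε := by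
  revert ε a b; decide

lemma pdd_asc (ε a b : Bool) (i : Fin 4) : asc a b (pdd ε a b i) = !ε := by
  revert ε a b i; decide

lemma pdd_of_asc (ε a b : Bool) (s : V) (h : asc a b s = !ε) : ∃ i, pdd ε a b i = s := by
  revert ε a b s; decide

lemma pdd_adj (ε a b : Bool) : hammingDist (pdd ε a b 0) (pdd ε a b 1) = 1 ∧
    hammingDist (pdd ε a b 1) (pdd ε a b 2) = 1 ∧ hammingDist (pdd ε a b 2) (pdd ε a b 3) = 1 := by
  revert ε a b; decide

/-- distance to the base levels -/
noncomputable def Hh (q : Bool × Bool × ℤ) (ε : Bool) (w : W) : ℤ :=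
  if ε then ht q w - 1 else - ht q w

lemma Hh_gen (q : Bool × Bool × ℤ) (ε : Bool) (s : V) (w : W)
    (h : asc (stt q w).1 (stt q w).2.1 s = !ε) : Hh q ε (gen s * w) = Hh q ε w - 1 := by
  unfold Hh
  rw [ht_gen_mul, h]
  cases ε <;> simp <;> ring

/-- go `n` steps in the distinguished direction -/
noncomputable def rho (q : Bool × Bool × ℤ) (ε : Bool) : ℕ → W → W
  | 0, w => w
  | n + 1, w => rho q ε n (gen (ldd ε (stt q w).1 (stt q w).2.1) * w)

lemma TG_base (N : ℤ) (q : Bool × Bool × ℤ) (s : V) (w : W) (h0 : ht q w = 0)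
    (h1 : ht q (gen s * w) = 1) : (TG N q).Reachable w (gen s * w) := by
  apply SimpleGraph.Adj.reachable
  rw [TG, SimpleGraph.fromRel_adj]
  refine ⟨?_, Or.inl (Or.inl ⟨h0, h1, s, rfl⟩)⟩
  intro he
  rw [← he, h0] at h1
  exact absurd h1 (by norm_num)

/-- base edges, both directions: `H = 0`, then one more step in direction `ε` -/
lemma TG_base' (N : ℤ) (q : Bool × Bool × ℤ) (ε : Bool) (s : V) (w : W) (h0 : Hh q ε w = 0)
    (h : asc (stt q w).1 (stt q w).2.1 s = !ε) : (TG N q).Reachable w (gen s * w) := by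
  have h1 := ht_gen_mul q s w
  rw [h] at h1
  cases ε with
  | false =>
    simp only [Hh, Bool.false_eq_true, if_false, neg_eq_zero] at h0
    apply TG_base N q s w h0
    rw [h1, h0]; simp
  | true =>
    have h0' : ht q w = 1 := by
      simp only [Hh, if_true] at h0
      linarith
    have h2 : ht q (gen s * w) = 0 := by
      rw [h1, h0']; simp
    have h3 := TG_base N q s (gen s * w) h2 (by rw [gen_mul_gen]; exact h0')
    rw [gen_mul_gen] at h3
    exact h3.symm

lemma rho_desc (N : ℤ) (q : Bool × Bool × ℤ) (ε : Bool) : ∀ (n : ℕ) (u : W) (s : V),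
    Hh q ε u = n + 1 → asc (stt q u).1 (stt q u).2.1 s = !ε →
    (TG N q).Reachable (rho q ε (n + 1) u) (rho q ε n (gen s * u)) := by
  intro n
  induction n with
  | zero =>
    intro u s hu hs
    have key : ∀ s t : V, hammingDist s t = 1 → asc (stt q u).1 (stt q u).2.1 s = !ε →
        asc (stt q u).1 (stt q u).2.1 t = !ε →
        (TG N q).Reachable (rho q ε 0 (gen s * u)) (rho q ε 0 (gen t * u)) := by
      intro s t hst h1 h2
      have hH1 : Hh q ε (gen s * u) = 0 := by
        rw [Hh_gen q ε s u h1, hu]; simp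
      have hH2 : Hh q ε (gen t * u) = 0 := by
        rw [Hh_gen q ε t u h2, hu]; simp
      have e1 := TG_base' N q ε t (gen s * u) hH1 (by rw [asc_gen_comm q s t hst, h2])
      have hst' : hammingDist t s = 1 := by rw [hammingDist_comm]; exact hst
      have e2 := TG_base' N q ε s (gen t * u) hH2 (by rw [asc_gen_comm q t s hst', h1])
      have hc : gen t * (gen s * u) = gen s * (gen t * u) := by
        rw [← mul_assoc, ← mul_assoc, gen_comm s t hst]
      rw [hc] at e1
      exact e1.trans e2.symm
    have hall : ∀ i j : Fin 4, (TG N q).Reachable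
        (rho q ε 0 (gen (pdd ε (stt q u).1 (stt q u).2.1 i) * u))
        (rho q ε 0 (gen (pdd ε (stt q u).1 (stt q u).2.1 j) * u)) := by
      obtain ⟨a1, a2, a3⟩ := pdd_adj ε (stt q u).1 (stt q u).2.1
      have k1 := key _ _ a1 (pdd_asc _ _ _ _) (pdd_asc _ _ _ _)
      have k2 := key _ _ a2 (pdd_asc _ _ _ _) (pdd_asc _ _ _ _)
      have k3 := key _ _ a3 (pdd_asc _ _ _ _) (pdd_asc _ _ _ _)
      have z : ∀ i : Fin 4, (TG N q).Reachable
        (rho q ε 0 (gen (pdd ε (stt q u).1 (stt q u).2.1 0) * u))
        (rho q ε 0 (gen (pdd ε (stt q u).1 (stt q u).2.1 i) * u)) := by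
        intro i
        fin_cases i
        · exact SimpleGraph.Reachable.refl _
        · exact k1
        · exact k1.trans k2
        · exact (k1.trans k2).trans k3
      intro i j
      exact (z i).symm.trans (z j)
    obtain ⟨i, hi⟩ := pdd_of_asc ε (stt q u).1 (stt q u).2.1 s hs
    obtain ⟨j, hj⟩ := pdd_of_asc ε (stt q u).1 (stt q u).2.1 _ (ldd_asc ε (stt q u).1 (stt q u).2.1)
    have := hall j i
    rw [hi, hj] at this
    exact this
  | succ m ih =>
    intro u s hu hs
    have key : ∀ s t : V, hammingDist s t = 1 → asc (stt q u).1 (stt q u).2.1 s = !ε →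
        asc (stt q u).1 (stt q u).2.1 t = !ε →
        (TG N q).Reachable (rho q ε (m + 1) (gen s * u)) (rho q ε (m + 1) (gen t * u)) := by
      intro s t hst h1 h2
      have hH1 : Hh q ε (gen s * u) = m + 1 := by
        rw [Hh_gen q ε s u h1, hu]; push_cast; ring
      have hH2 : Hh q ε (gen t * u) = m + 1 := by
        rw [Hh_gen q ε t u h2, hu]; push_cast; ring
      have e1 := ih (gen s * u) t hH1 (by rw [asc_gen_comm q s t hst, h2])
      have hst' : hammingDist t s = 1 := by rw [hammingDist_comm]; exact hst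
      have e2 := ih (gen t * u) s hH2 (by rw [asc_gen_comm q t s hst', h1])
      have hc : gen t * (gen s * u) = gen s * (gen t * u) := by
        rw [← mul_assoc, ← mul_assoc, gen_comm s t hst]
      rw [hc] at e1
      exact e1.trans e2.symm
    have hall : ∀ i j : Fin 4, (TG N q).Reachable
        (rho q ε (m + 1) (gen (pdd ε (stt q u).1 (stt q u).2.1 i) * u))
        (rho q ε (m + 1) (gen (pdd ε (stt q u).1 (stt q u).2.1 j) * u)) := by
      obtain ⟨a1, a2, a3⟩ := pdd_adj ε (stt q u).1 (stt q u).2.1
      have k1 := key _ _ a1 (pdd_asc _ _ _ _) (pdd_asc _ _ _ _)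
      have k2 := key _ _ a2 (pdd_asc _ _ _ _) (pdd_asc _ _ _ _)
      have k3 := key _ _ a3 (pdd_asc _ _ _ _) (pdd_asc _ _ _ _)
      have z : ∀ i : Fin 4, (TG N q).Reachable
        (rho q ε (m + 1) (gen (pdd ε (stt q u).1 (stt q u).2.1 0) * u))
        (rho q ε (m + 1) (gen (pdd ε (stt q u).1 (stt q u).2.1 i) * u)) := by
        intro i
        fin_cases i
        · exact SimpleGraph.Reachable.refl _
        · exact k1
        · exact k1.trans k2
        · exact (k1.trans k2).trans k3
      intro i j
      exact (z i).symm.trans (z j)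
    obtain ⟨i, hi⟩ := pdd_of_asc ε (stt q u).1 (stt q u).2.1 s hs
    obtain ⟨j, hj⟩ := pdd_of_asc ε (stt q u).1 (stt q u).2.1 _ (ldd_asc ε (stt q u).1 (stt q u).2.1)
    have := hall j i
    rw [hi, hj] at this
    exact this

/-- retraction onto the two base levels -/
noncomputable def ret (q : Bool × Bool × ℤ) (w : W) : W :=
  if 1 ≤ ht q w then rho q true (ht q w - 1).toNat w else rho q false (- ht q w).toNat w

lemma ret_pos (q : Bool × Bool × ℤ) (w : W) (n : ℕ) (h : ht q w = n + 1) :
    ret q w = rho q true n w := by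
  unfold ret
  rw [if_pos (by rw [h]; linarith [Int.natCast_nonneg n])]
  congr 1
  rw [h]; simp

lemma ret_neg (q : Bool × Bool × ℤ) (w : W) (n : ℕ) (h : ht q w = - n) :
    ret q w = rho q false n w := by
  unfold ret
  have h0 := Int.natCast_nonneg n
  rw [if_neg (by rw [h]; linarith)]
  congr 1
  rw [h]; simp

/-- ascending Cayley edges -/
lemma ret_asc (N : ℤ) (q : Bool × Bool × ℤ) (s : V) (w : W)
    (h : asc (stt q w).1 (stt q w).2.1 s = true) :
    (TG N q).Reachable (ret q w) (ret q (gen s * w)) := by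
  have h1 : ht q (gen s * w) = ht q w + 1 := by rw [ht_gen_mul, h]; simp
  have hds : asc (stt q (gen s * w)).1 (stt q (gen s * w)).2.1 s = false := by
    rw [asc_gen_self, h]; rfl
  rcases lt_trichotomy (ht q w) 0 with hlt | heq | hgt
  · -- lower part
    obtain ⟨n, hn⟩ : ∃ n : ℕ, ht q w = - ((n : ℤ) + 1) := by
      refine ⟨(- ht q w - 1).toNat, ?_⟩
      rw [Int.toNat_of_nonneg (by linarith)]; ring
    rw [ret_neg q w (n + 1) (by rw [hn]; push_cast; ring),
      ret_neg q (gen s * w) n (by rw [h1, hn]; ring)]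
    apply rho_desc N q false n w s
    · simp only [Hh, Bool.false_eq_true, if_false]
      rw [hn]; ring
    · rw [h]; rfl
  · rw [ret_neg q w 0 (by rw [heq]; simp), ret_pos q (gen s * w) 0 (by rw [h1, heq]; simp)]
    exact TG_base N q s w heq (by rw [h1, heq]; norm_num)
  · obtain ⟨n, hn⟩ : ∃ n : ℕ, ht q w = (n : ℤ) + 1 := by
      refine ⟨(ht q w - 1).toNat, ?_⟩
      rw [Int.toNat_of_nonneg (by linarith)]; ring
    rw [ret_pos q w n hn, ret_pos q (gen s * w) (n + 1) (by rw [h1, hn]; push_cast; ring)]
    have := rho_desc N q true n (gen s * w) s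
      (by simp only [Hh, if_true]; rw [h1, hn]; ring) (by rw [hds]; rfl)
    rw [gen_mul_gen] at this
    exact this.symm

lemma ret_gen (N : ℤ) (q : Bool × Bool × ℤ) (s : V) (w : W) :
    (TG N q).Reachable (ret q w) (ret q (gen s * w)) := by
  by_cases h : asc (stt q w).1 (stt q w).2.1 s = true
  · exact ret_asc N q s w h
  · have h' : asc (stt q (gen s * w)).1 (stt q (gen s * w)).2.1 s = true := by
      rw [asc_gen_self]
      simpa using h
    have := ret_asc N q s (gen s * w) h'
    rw [gen_mul_gen] at this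
    exact this.symm

lemma ret_one (N : ℤ) (q : Bool × Bool × ℤ) (w : W) :
    (TG N q).Reachable (ret q 1) (ret q w) := by
  apply cs.simple_induction_left (p := fun w => (TG N q).Reachable (ret q 1) (ret q w)) w
  · exact SimpleGraph.Reachable.refl _
  · intro w s hw
    exact hw.trans (ret_gen N q s w)

lemma reach_rho (N : ℤ) (q : Bool × Bool × ℤ) : ∀ (n : ℕ) (w : W), ht q w = n + 1 → ht q w < N →
    (TG N q).Reachable w (rho q true n w) := by
  intro n
  induction n with
  | zero => intro w _ _; exact SimpleGraph.Reachable.refl _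
  | succ n ih =>
    intro w h hN
    have hd : asc (stt q w).1 (stt q w).2.1 (ldd true (stt q w).1 (stt q w).2.1) = false :=
      ldd_asc true _ _
    have h1 : ht q (gen (ldd true (stt q w).1 (stt q w).2.1) * w) = n + 1 := by
      rw [ht_gen_mul, hd, h]; push_cast; simp
    have h2 := ih _ h1 (by rw [h1]; rw [h] at hN; push_cast at hN; linarith)
    refine SimpleGraph.Reachable.trans ?_ h2
    apply SimpleGraph.Adj.reachable
    rw [TG, SimpleGraph.fromRel_adj]
    refine ⟨?_, Or.inl (Or.inr ⟨?_, hN, rfl⟩)⟩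
    · intro he
      rw [← he, h] at h1
      push_cast at h1
      linarith
    · rw [h]; push_cast; linarith [Int.natCast_nonneg n]

theorem reach_ret (N : ℤ) (q : Bool × Bool × ℤ) (w : W) (h0 : 0 ≤ ht q w) (hN : ht q w < N) :
    (TG N q).Reachable w (ret q w) := by
  rcases h0.eq_or_lt with h | h
  · rw [ret_neg q w 0 (by rw [← h]; simp)]
    exact SimpleGraph.Reachable.refl _
  · obtain ⟨n, hn⟩ : ∃ n : ℕ, ht q w = (n : ℤ) + 1 := by
      refine ⟨(ht q w - 1).toNat, ?_⟩
      rw [Int.toNat_of_nonneg (by linarith)]; ring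
    rw [ret_pos q w n hn]
    exact reach_rho N q n w hn hN

/-- MODULE C, part 2 -/
theorem treeConn : TreeConn := by
  intro N q _ w w' h1 h2 h3 h4
  exact ((reach_ret N q w h1 h2).trans (((ret_one N q w).symm).trans (ret_one N q w'))).trans
    (reach_ret N q w' h3 h4).symm

end Pool.Agent.AT.TC2
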