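import Pool.Agent.H171AT.Helper192_AT_Inst

set_option autoImplicit false

/-! S02495 (MP_ff0320_al), module X, measure on the states and 2-adic heights. -/

open MeasureTheory

namespace Pool.Agent.AT

/-- states and 2-adic heights -/
abbrev Q2 := Bool × Bool × ℤ_[2]

/-- Haar probability measure on the 2-adic integers -/
noncomputable def haar2 : Measure ℤ_[2] := Measure.addHaarMeasure ⊤

instance : haar2.IsAddHaarMeasure := by unfold haar2; infer_instance

theorem haar2_univ : haar2 Set.univ = 1 := by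
  have := Measure.addHaarMeasure_self (G := ℤ_[2]) (K₀ := ⊤)
  simpa [haar2] using this

instance : IsProbabilityMeasure haar2 := ⟨haar2_univ⟩

theorem meas_mk (a b : Bool) : Measurable (fun z : ℤ_[2] => ((a, b, z) : Q2)) := by fun_prop

/-- the probability measure on states and heights -/
noncomputable def nu : Measure Q2 :=
  ∑ ab : Bool × Bool, (4 : ENNReal)⁻¹ • haar2.map (fun z : ℤ_[2] => ((ab.1, ab.2, z) : Q2))

instance : IsProbabilityMeasure nu := by
  constructor
  have h : ∀ ab : Bool × Bool, ((4 : ENNReal)⁻¹ •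
      haar2.map (fun z : ℤ_[2] => ((ab.1, ab.2, z) : Q2))) Set.univ = 4⁻¹ := by
    intro ab
    rw [Measure.smul_apply, Measure.map_apply (meas_mk _ _) MeasurableSet.univ]
    simp [haar2_univ]
  unfold nu
  rw [Measure.coe_finsetSum, Finset.sum_apply, Finset.sum_congr rfl fun ab _ => h ab]
  rw [Finset.sum_const]
  simp only [Finset.card_univ, Fintype.card_prod, Fintype.card_bool, nsmul_eq_mul]
  norm_num
  exact ENNReal.mul_inv_cancel (by norm_num) (by norm_num)

/-- the new state -/
def nst (s : V) (ab : Bool × Bool) : Bool × Bool :=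
  (if ev s then (!ab.1) else ab.1, if ev s then ab.2 else (!ab.2))

theorem nst_nst (s : V) (ab : Bool × Bool) : nst s (nst s ab) = ab := by
  obtain ⟨a, b⟩ := ab
  cases h : ev s <;> simp [nst, h]

/-- the change of the height -/
noncomputable def cst (s : V) (ab : Bool × Bool) : ℤ_[2] := if asc ab.1 ab.2 s then 1 else -1

theorem step_mk (s : V) (a b : Bool) (z : ℤ_[2]) :
    step ℤ_[2] s (a, b, z) = ((nst s (a, b)).1, (nst s (a, b)).2, z + cst s (a, b)) := rfl

theorem meas_step (s : V) : Measurable (step ℤ_[2] s) := by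
  have h : ∀ t : Set Q2, MeasurableSet t → MeasurableSet (step ℤ_[2] s ⁻¹' t) := by
    intro t ht
    have : step ℤ_[2] s ⁻¹' t = ⋃ ab : Bool × Bool,
        {p : Q2 | (p.1, p.2.1) = ab ∧ (((nst s ab).1, (nst s ab).2, p.2.2 + cst s ab) : Q2) ∈ t} := by
      ext p
      simp only [Set.mem_preimage, Set.mem_iUnion, Set.mem_setOf_eq]
      constructor
      · intro h
        exact ⟨(p.1, p.2.1), rfl, h⟩
      · rintro ⟨ab, rfl, h⟩
        exact h
    rw [this]
    refine MeasurableSet.iUnion fun ab => ?_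
    refine MeasurableSet.inter ?_ ?_
    · have h1 : Measurable (fun p : Q2 => (p.1, p.2.1)) := by fun_prop
      exact h1 (MeasurableSet.singleton ab)
    · have h1 : Measurable (fun p : Q2 => (((nst s ab).1, (nst s ab).2, p.2.2 + cst s ab) : Q2)) := by
        fun_prop
      exact h1 ht
  exact fun t ht => h t ht

theorem mp_step (s : V) : MeasurePreserving (step ℤ_[2] s) nu nu := by
  refine ⟨meas_step s, ?_⟩
  have h : ∀ ab : Bool × Bool, (haar2.map (fun z : ℤ_[2] => ((ab.1, ab.2, z) : Q2))).map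
      (step ℤ_[2] s) = haar2.map (fun z : ℤ_[2] => (((nst s ab).1, (nst s ab).2, z) : Q2)) := by
    intro ab
    rw [Measure.map_map (meas_step s) (meas_mk _ _)]
    have h1 : (step ℤ_[2] s ∘ fun z : ℤ_[2] => ((ab.1, ab.2, z) : Q2)) =
        (fun z : ℤ_[2] => (((nst s ab).1, (nst s ab).2, z) : Q2)) ∘ (fun z => z + cst s ab) := by
      funext z
      rfl
    rw [h1, ← Measure.map_map (meas_mk _ _) (by fun_prop)]
    rw [(measurePreserving_add_right haar2 (cst s ab)).map_eq]
  unfold nu
  rw [← Measure.mapₗ_apply_of_measurable (meas_step s), map_sum]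
  simp only [Measure.mapₗ_apply_of_measurable (meas_step s), Measure.map_smul, h]
  exact Equiv.sum_comp (⟨nst s, nst s, nst_nst s, nst_nst s⟩ : (Bool × Bool) ≃ (Bool × Bool))
    (fun ab => (4 : ENNReal)⁻¹ • haar2.map (fun z : ℤ_[2] => ((ab.1, ab.2, z) : Q2)))

theorem mp_theta (w : W) : MeasurePreserving (fun p : Q2 => θ ℤ_[2] w p) nu nu := by
  induction w using cs.simple_induction_left with
  | one =>
    simp only [map_one, Equiv.Perm.coe_one, id_eq]
    exact MeasurePreserving.id nu
  | mul_simple_left w s ih =>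
    have h : (fun p : Q2 => θ ℤ_[2] (cs.simple s * w) p) =
        (step ℤ_[2] s) ∘ (fun p : Q2 => θ ℤ_[2] w p) := by
      funext p
      rw [map_mul, Equiv.Perm.mul_apply]
      exact θ_gen ℤ_[2] s _
    rw [h]
    exact (mp_step s).comp ih

/-- the height changes by an integer -/
theorem theta_int (w : W) (p : Q2) : ∃ m : ℤ, (θ ℤ_[2] w p).2.2 = p.2.2 + m := by
  induction w using cs.simple_induction_left with
  | one => exact ⟨0, by simp⟩
  | mul_simple_left w s ih =>
    obtain ⟨m, hm⟩ := ih
    rw [map_mul, Equiv.Perm.mul_apply]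
    have h := θ_gen ℤ_[2] s (θ ℤ_[2] w p)
    unfold gen at h
    rw [h]
    refine ⟨m + if asc (θ ℤ_[2] w p).1 (θ ℤ_[2] w p).2.1 s then 1 else -1, ?_⟩
    show (θ ℤ_[2] w p).2.2 + (if asc (θ ℤ_[2] w p).1 (θ ℤ_[2] w p).2.1 s then 1 else -1) = _
    rw [hm]
    split_ifs <;> push_cast <;> ring

/-- the integral heights are excluded -/
def NZ : Set Q2 := {p | ∀ k : ℤ, p.2.2 ≠ (k : ℤ_[2])}

theorem theta_NZ (w : W) (p : Q2) (hp : p ∈ NZ) : θ ℤ_[2] w p ∈ NZ := by
  intro k hk
  obtain ⟨m, hm⟩ := theta_int w p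
  apply hp (k - m)
  rw [hm] at hk
  push_cast
  rw [← hk]; ring

theorem meas_NZ : MeasurableSet NZ := by
  have : NZ = ⋂ k : ℤ, (fun p : Q2 => p.2.2) ⁻¹' {(k : ℤ_[2])}ᶜ := by
    ext p
    simp [NZ]
  rw [this]
  refine MeasurableSet.iInter fun k => ?_
  have h1 : Measurable (fun p : Q2 => p.2.2) := by fun_prop
  exact h1 (MeasurableSet.singleton _).compl

theorem haar2_singleton (z : ℤ_[2]) : haar2 {z} = 0 := by
  by_contra h
  have h1 : ∀ y : ℤ_[2], haar2 {y} = haar2 {z} := by
    intro y
    have := measure_preimage_add_right haar2 (z - y) {z}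
    rw [← this]
    congr 1
    ext x
    simp only [Set.mem_singleton_iff, Set.mem_preimage]
    constructor
    · rintro rfl; ring
    · intro h
      linear_combination h
  have hinf : Set.Infinite (Set.univ : Set ℤ_[2]) := by
    haveI : Infinite ℤ_[2] := Infinite.of_injective (Int.cast : ℤ → ℤ_[2]) Int.cast_injective
    exact Set.infinite_univ
  have h2 := Measure.count_apply_infinite hinf
  -- countably many points
  have h3 : haar2 (Set.range (Int.cast : ℤ → ℤ_[2])) = ∑' _ : ℤ, haar2 {z} := by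
    have h4 : Set.range (Int.cast : ℤ → ℤ_[2]) = ⋃ k : ℤ, {(k : ℤ_[2])} := by
      ext x; simp [eq_comm]
    rw [h4, measure_iUnion]
    · exact tsum_congr fun k => h1 _
    · intro i j hij
      simp only [Function.onFun, Set.disjoint_singleton]
      intro h
      exact hij (Int.cast_injective h)
    · intro i; exact MeasurableSet.singleton _
  rw [ENNReal.tsum_const_eq_top_of_ne_zero h] at h3
  exact (measure_ne_top haar2 _) h3

theorem nu_NZ : nu NZᶜ = 0 := by
  have hm := meas_NZ.compl
  unfold nu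
  rw [Measure.coe_finsetSum, Finset.sum_apply]
  refine Finset.sum_eq_zero fun ab _ => ?_
  rw [Measure.smul_apply, Measure.map_apply (meas_mk _ _) hm]
  have : (fun z : ℤ_[2] => ((ab.1, ab.2, z) : Q2)) ⁻¹' NZᶜ = ⋃ k : ℤ, {(k : ℤ_[2])} := by
    ext z
    simp [NZ, eq_comm]
  rw [this, smul_eq_mul, measure_iUnion_null fun k => haar2_singleton _, mul_zero]

end Pool.Agent.AT
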