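import Pool.Agent.H171AT.AT_Defs

set_option autoImplicit false

namespace Pool.Agent.AT

noncomputable instance instMeasZ2 : MeasurableSpace ℤ_[2] := borel ℤ_[2]
instance instBorelZ2 : BorelSpace ℤ_[2] := ⟨rfl⟩

end Pool.Agent.AT
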