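import Pool.Agent.H171AT.AT_Geo2

set_option autoImplicit false

/-! S02495 (MP_ff0320_al), module X: a compact group containing `W`. -/

open MeasureTheory

namespace Pool.Agent.AT

/-- invertible matrices modulo `n + 2` -/
def Kn (n : ℕ) : Type := (Matrix (Fin 4) (Fin 4) (ZMod (n + 2)))ˣ

instance (n : ℕ) : Group (Kn n) := inferInstanceAs (Group (Matrix (Fin 4) (Fin 4) (ZMod (n + 2)))ˣ)

instance (n : ℕ) : Finite (Kn n) := by
  haveI : NeZero (n + 2) := ⟨by omega⟩
  haveI : Finite (Matrix (Fin 4) (Fin 4) (ZMod (n + 2))) :=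
    inferInstanceAs (Finite (Fin 4 → Fin 4 → ZMod (n + 2)))
  exact inferInstanceAs (Finite (Matrix (Fin 4) (Fin 4) (ZMod (n + 2)))ˣ)

instance (n : ℕ) : TopologicalSpace (Kn n) := ⊥
instance (n : ℕ) : DiscreteTopology (Kn n) := ⟨rfl⟩

/-- the compact group -/
def KK : Type := ∀ n : ℕ, Kn n

instance : Group KK := inferInstanceAs (Group (∀ n : ℕ, Kn n))
instance : TopologicalSpace KK := inferInstanceAs (TopologicalSpace (∀ n : ℕ, Kn n))
instance : IsTopologicalGroup KK := inferInstanceAs (IsTopologicalGroup (∀ n : ℕ, Kn n))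
instance : CompactSpace KK := inferInstanceAs (CompactSpace (∀ n : ℕ, Kn n))
instance : T2Space KK := inferInstanceAs (T2Space (∀ n : ℕ, Kn n))
instance : SecondCountableTopology KK := inferInstanceAs (SecondCountableTopology (∀ n : ℕ, Kn n))
instance : PolishSpace KK := inferInstanceAs (PolishSpace (∀ n : ℕ, Kn n))
noncomputable instance : MeasurableSpace KK := borel KK
instance : BorelSpace KK := ⟨rfl⟩
instance : StandardBorelSpace KK := inferInstance

/-- Haar probability measure -/
noncomputable def haarK : Measure KK := Measure.haarMeasure ⊤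

instance : haarK.IsHaarMeasure := by unfold haarK; infer_instance

instance : IsProbabilityMeasure haarK := ⟨by
  have := Measure.haarMeasure_self (G := KK) (K₀ := ⊤)
  simpa [haarK] using this⟩

theorem mp_left (k : KK) : MeasurePreserving (fun x : KK => k * x) haarK haarK :=
  measurePreserving_mul_left haarK k

/-- the integral matrix of an element of `W` -/
noncomputable def rhoF (h : StT2) (w : W) : Matrix (Fin 4) (Fin 4) ℤ :=
  Matrix.of fun i j => Classical.choose (h w i j)

theorem rhoF_spec (h : StT2) (w : W) (i j : Fin 4) : ((rhoF h w i j : ℤ) : ℝ) = (bb w).mat i j :=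
  (Classical.choose_spec (h w i j)).symm

/-- the integral representation -/
noncomputable def rho (h : StT2) : W →* Matrix (Fin 4) (Fin 4) ℤ where
  toFun w := rhoF h w
  map_one' := by
    ext i j
    have h1 := rhoF_spec h 1 i j
    have h2 : (bb 1).mat i j = ((1 : Matrix (Fin 4) (Fin 4) ℤ) i j : ℝ) := by
      rw [map_one, G.mat_one, Matrix.one_apply, Matrix.one_apply]
      split_ifs <;> simp
    rw [h2] at h1
    exact_mod_cast h1
  map_mul' := by
    intro v w
    ext i j
    have h1 := rhoF_spec h (v * w) i j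
    rw [map_mul, G.mat_mul, Matrix.mul_apply] at h1
    rw [Finset.sum_congr rfl fun k _ => by
      rw [← rhoF_spec h v i k, ← rhoF_spec h w k j]] at h1
    rw [Matrix.mul_apply]
    exact_mod_cast h1

theorem rho_spec (h : StT2) (w : W) (i j : Fin 4) : ((rho h w i j : ℤ) : ℝ) = (bb w).mat i j :=
  rhoF_spec h w i j

theorem rho_inj (h1 : StT1) (h : StT2) : Function.Injective (rho h) := by
  intro v w hvw
  apply h1
  apply G.ext
  ext i j
  rw [← rho_spec h, ← rho_spec h, hvw]

/-- the embedding of `W` into the compact group -/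
noncomputable def iota (h : StT2) : W →* KK where
  toFun w := fun n => (((Int.castRingHom (ZMod (n + 2))).mapMatrix.toMonoidHom.comp
    (rho h)).toHomUnits w : (Matrix (Fin 4) (Fin 4) (ZMod (n + 2)))ˣ)
  map_one' := by
    funext n
    exact map_one (((Int.castRingHom (ZMod (n + 2))).mapMatrix.toMonoidHom.comp
      (rho h)).toHomUnits)
  map_mul' := by
    intro v w
    funext n
    exact map_mul (((Int.castRingHom (ZMod (n + 2))).mapMatrix.toMonoidHom.comp
      (rho h)).toHomUnits) v w

theorem iota_inj (h1 : StT1) (h : StT2) : Function.Injective (iota h) := by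
  intro v w hvw
  apply rho_inj h1 h
  ext i j
  by_contra hne
  set N : ℕ := (rho h v i j - rho h w i j).natAbs with hN
  have hn := congrFun hvw N
  have h2 : ((((Int.castRingHom (ZMod (N + 2))).mapMatrix.toMonoidHom.comp
    (rho h)).toHomUnits v : (Matrix (Fin 4) (Fin 4) (ZMod (N + 2)))ˣ) :
      Matrix (Fin 4) (Fin 4) (ZMod (N + 2))) = ((((Int.castRingHom (ZMod (N + 2))).mapMatrix.toMonoidHom.comp
    (rho h)).toHomUnits w : (Matrix (Fin 4) (Fin 4) (ZMod (N + 2)))ˣ) :
      Matrix (Fin 4) (Fin 4) (ZMod (N + 2))) := congrArg Units.val hn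
  have h3 : ((rho h v i j : ℤ) : ZMod (N + 2)) = ((rho h w i j : ℤ) : ZMod (N + 2)) := by
    have := congrFun (congrFun h2 i) j
    exact this
  rw [ZMod.intCast_eq_intCast_iff_dvd_sub] at h3
  have h4 : rho h w i j - rho h v i j = 0 := by
    apply Int.eq_zero_of_abs_lt_dvd h3
    rw [abs_sub_comm, Int.abs_eq_natAbs, ← hN]
    push_cast
    omega
  exact hne (by omega)

end Pool.Agent.AT
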