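import Pool.Agent.H171AT.Helper192_AT_Space
import Pool.Agent.H171AT.AT_Orb

set_option autoImplicit false

/-! S02495 (MP_ff0320_al), module X: assembly. -/

open MeasureTheory

namespace Pool.Agent.AT

/-- MODULE X from T1, T2 and the two tree lemmas -/
theorem moduleX (h1 : StT1) (h2 : StT2) (hA : TreeAcyclic) (hC : TreeConn) : ModuleX := by
  obtain ⟨X₀, i1, i2, μ₀, i3, i4, hmp, hf, st, hst, he, hn⟩ := space h1 h2
  exact ⟨X₀, i1, i2, μ₀, i3, i4, hmp, hf,
    orbitPart ⟨st, hst, he, hn⟩ hA hC (fun w => (hmp w).measurable) hf⟩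

end Pool.Agent.AT
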