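import Pool.Agent.H171AT.Helper192_AT_KSpace
import Pool.Agent.H171AT.Helper192_AT_Haar2

set_option autoImplicit false

/-! S02495 (MP_ff0320_al), module X: the space. -/

open MeasureTheory

namespace Pool.Agent.AT

/-- the points with nonintegral height -/
def SS : Set (KK × Q2) := {x | x.2 ∈ NZ}

theorem meas_SS : MeasurableSet SS := measurable_snd meas_NZ

/-- the ambient action -/
noncomputable def TT (h : StT2) (w : W) (x : KK × Q2) : KK × Q2 := (iota h w * x.1, θ ℤ_[2] w x.2)

theorem mp_TT (h : StT2) (w : W) : MeasurePreserving (TT h w) (haarK.prod nu) (haarK.prod nu) := by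
  have := (mp_left (iota h w)).prod (mp_theta w)
  exact this

theorem null_SS : (haarK.prod nu) SSᶜ = 0 := by
  have : SSᶜ = Set.univ ×ˢ NZᶜ := by
    ext x
    simp [SS]
  rw [this, Measure.prod_prod, nu_NZ, mul_zero]

/-- the action on the space -/
noncomputable def actX (h : StT2) : MulAction W SS where
  smul w x := ⟨TT h w x.1, theta_NZ w x.1.2 x.2⟩
  one_smul x := by
    apply Subtype.ext
    show TT h 1 x.1 = x.1
    unfold TT
    rw [map_one, map_one, one_mul]
    rfl
  mul_smul v w x := by
    apply Subtype.ext
    show TT h (v * w) x.1 = TT h v (TT h w x.1)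
    unfold TT
    rw [map_mul, map_mul, mul_assoc]
    rfl

/-- the measure on the space -/
noncomputable def muX : Measure SS := (haarK.prod nu).comap Subtype.val

theorem map_muX : muX.map (Subtype.val : SS → KK × Q2) = haarK.prod nu := by
  unfold muX
  rw [(MeasurableEmbedding.subtype_coe meas_SS).map_comap, Subtype.range_coe]
  refine Measure.restrict_eq_self_of_ae_mem ?_
  rw [ae_iff]
  exact null_SS

instance : IsProbabilityMeasure muX := by
  constructor
  have h := congrArg (fun m : Measure (KK × Q2) => m Set.univ) map_muX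
  simp only [measure_univ] at h
  rw [Measure.map_apply measurable_subtype_coe MeasurableSet.univ] at h
  simpa using h

theorem space (h1 : StT1) (h2 : StT2) : ∃ (X₀ : Type) (_ : MeasurableSpace X₀)
    (_ : StandardBorelSpace X₀) (μ₀ : Measure X₀) (_ : IsProbabilityMeasure μ₀)
    (_ : MulAction W X₀),
    (∀ w : W, MeasurePreserving (fun x : X₀ => w • x) μ₀ μ₀) ∧
    (∀ (x : X₀) (w : W), w • x = x → w = 1) ∧
    ∃ st : X₀ → Bool × Bool × ℤ_[2], Measurable st ∧ (∀ w x, st (w • x) = θ ℤ_[2] w (st x)) ∧
      ∀ x (k : ℤ), (st x).2.2 ≠ (k : ℤ_[2]) := by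
  refine ⟨SS, inferInstance, meas_SS.standardBorel, muX, inferInstance, actX h2, ?_, ?_,
    fun x => x.1.2, measurable_snd.comp measurable_subtype_coe, fun w x => rfl, fun x k => x.2 k⟩
  · intro w
    letI := actX h2
    have hT : Measurable (fun x : SS => w • x) := by
      refine Measurable.subtype_mk ?_
      exact (mp_TT h2 w).measurable.comp measurable_subtype_coe
    refine ⟨hT, ?_⟩
    have e1 : (muX.map (fun x : SS => w • x)).map (Subtype.val : SS → KK × Q2) =
        muX.map (Subtype.val : SS → KK × Q2) := by
      rw [Measure.map_map measurable_subtype_coe hT]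
      have e2 : (Subtype.val ∘ fun x : SS => w • x) = TT h2 w ∘ Subtype.val := rfl
      rw [e2, ← Measure.map_map (mp_TT h2 w).measurable measurable_subtype_coe, map_muX,
        (mp_TT h2 w).map_eq]
    have e3 := congrArg (fun m => Measure.comap (Subtype.val : SS → KK × Q2) m) e1
    simp only [(MeasurableEmbedding.subtype_coe meas_SS).comap_map] at e3
    exact e3
  · intro x w hw
    have e1 : TT h2 w x.1 = x.1 := congrArg Subtype.val hw
    have e2 : iota h2 w * x.1.1 = x.1.1 := congrArg Prod.fst e1
    have e3 : iota h2 w = 1 := by simpa using e2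
    exact iota_inj h1 h2 (by rw [e3, map_one])

end Pool.Agent.AT
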