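import Pool.Agent.H171AT.AT_Geo2

/-! Modules M1 and M2 of helper171's plan: right invariance of the Haar measure of `O⁺(3,1)` under
involutions, and finiteness of the measure of the cusp set.  helper447. -/

set_option autoImplicit false
open MeasureTheory Topology Pool.Agent.AT
open Matrix hiding J

namespace Pool.Agent.Helper447.ATM

noncomputable def m : Measure G := Measure.haar
abbrev O31 := G
/-- the matrix -/
def mt (g : O31) : Mat := g.mat

theorem lor_entry (g : Mat) (i j : Fin 4) :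
    (gᵀ * J * g) i j = g 0 i * g 0 j + g 1 i * g 1 j + g 2 i * g 2 j - g 3 i * g 3 j := by
  simp [Matrix.mul_apply, J, Matrix.diagonal, Fin.sum_univ_four]
  ring

theorem lor_entry' (g : Mat) (i j : Fin 4) :
    (g * J * gᵀ) i j = g i 0 * g j 0 + g i 1 * g j 1 + g i 2 * g j 2 - g i 3 * g j 3 := by
  simp [Matrix.mul_apply, J, Matrix.diagonal, Fin.sum_univ_four]
  ring


instance : m.IsHaarMeasure := by unfold m; infer_instance
instance : m.Regular := by unfold m; infer_instance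
instance : m.InnerRegular := by unfold m; infer_instance

/-- `t` preserves `m` by right multiplication -/
def RInv (t : O31) : Prop := Measure.map (· * t) m = m

theorem RInv.mul {s t : O31} (hs : RInv s) (ht : RInv t) : RInv (s * t) := by
  unfold RInv at *
  have : (fun g : O31 => g * (s * t)) = (fun g => g * t) ∘ (fun g => g * s) := by
    funext g; simp [mul_assoc]
  rw [this, ← Measure.map_map (measurable_mul_const t) (measurable_mul_const s), hs, ht]

theorem RInv.of_sq {t : O31} (h : t * t = 1) : RInv t := by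
  unfold RInv
  rw [Measure.map_right_mul_eq_modularCharacterFun_smul m t]
  have h1 : Measure.modularCharacterFun (t * t) = 1 := by
    rw [h]; exact Measure.modularCharacterFun_map_one
  rw [Measure.modularCharacterFun_map_mul] at h1
  have h2 : Measure.modularCharacterFun t = 1 := by
    have := NNReal.coe_inj.mpr h1
    push_cast at this
    have h0 : (0 : ℝ) ≤ Measure.modularCharacterFun t := NNReal.coe_nonneg _
    apply NNReal.coe_inj.mp
    push_cast
    nlinarith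
  rw [h2, one_smul]

theorem RInv.apply {t : O31} (h : RInv t) {A : Set O31} (hA : MeasurableSet A) :
    m ((fun g => g * t) ⁻¹' A) = m A := by
  conv_rhs => rw [← h]
  rw [Measure.map_apply (measurable_mul_const t) hA]



/-- `u g = g⁻¹ e₃` (time vector) -/
def u (g : O31) : Fin 4 → ℝ := fun i => mt g⁻¹ i 3

theorem mt_mul (g h : O31) : mt (g * h) = mt g * mt h := rfl

theorem u_mul_inv (g t : O31) : u (g * t⁻¹) = mt t *ᵥ u g := by
  funext i
  unfold u
  rw [_root_.mul_inv_rev, inv_inv, mt_mul]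
  rfl

theorem u_eq (g : O31) : u g = ![-(mt g 3 0), -(mt g 3 1), -(mt g 3 2), mt g 3 3] := by
  funext i
  unfold u
  have : mt g⁻¹ = J * (mt g)ᵀ * J := rfl
  rw [this]
  fin_cases i <;> simp [Matrix.mul_apply, J, Matrix.diagonal]

theorem u_continuous : Continuous u := by
  have : u = fun g => ![-(mt g 3 0), -(mt g 3 1), -(mt g 3 2), mt g 3 3] := funext u_eq
  rw [this]
  have h : ∀ i j, Continuous (fun g : O31 => mt g i j) := fun i j =>
    (continuous_apply_apply i j).comp G.continuous_mat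
  have h0 := h 3 0
  have h1 := h 3 1
  have h2 := h 3 2
  have h3 := h 3 3
  refine continuous_pi ?_
  intro i
  fin_cases i <;> simp
  · exact h0.neg
  · exact h1.neg
  · exact h2.neg
  · exact h3

theorem u_measurable : Measurable u := u_continuous.measurable

/-- `u g` is on the hyperboloid -/
theorem u_hyp (g : O31) : u g 0 ^ 2 + u g 1 ^ 2 + u g 2 ^ 2 - u g 3 ^ 2 = -1 := by
  rw [u_eq]
  have a : mt g 3 0 * mt g 3 0 + mt g 3 1 * mt g 3 1 + mt g 3 2 * mt g 3 2 - mt g 3 3 * mt g 3 3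
      = -1 := by
    rw [← lor_entry' (mt g) 3 3, show mt g * J * (mt g)ᵀ = J from lor_transpose g.2.1]; simp [J]
  simp
  nlinarith

theorem u_pos (g : O31) : 0 < u g 3 := by
  rw [u_eq]; simp; exact g.2.2

/-- the group generated by involutions -/
def Inv : Subgroup O31 := Subgroup.closure {t | t * t = 1}

theorem RInv.one : RInv 1 := by
  unfold RInv; simp

theorem RInv.inv {t : O31} (h : RInv t) : RInv t⁻¹ := by
  unfold RInv at *
  conv_lhs => rw [← h]
  rw [Measure.map_map (measurable_mul_const _) (measurable_mul_const _)]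
  have : ((fun g : O31 => g * t⁻¹) ∘ fun g => g * t) = id := by funext g; simp
  rw [this, Measure.map_id]

theorem RInv.of_mem {t : O31} (h : t ∈ Inv) : RInv t := by
  unfold Inv at h
  induction h using Subgroup.closure_induction with
  | mem x hx => exact RInv.of_sq hx
  | one => exact RInv.one
  | mul x y _ _ hx hy => exact hx.mul hy
  | inv x _ hx => exact hx.inv

/-- `m` of the set of `g` with `u g ∈ A` is invariant -/
theorem m_u_pull {t : O31} (h : t ∈ Inv) {A : Set (Fin 4 → ℝ)} (hA : MeasurableSet A) :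
    m (u ⁻¹' {x | mt t *ᵥ x ∈ A}) = m (u ⁻¹' A) := by
  have h1 := (RInv.of_mem h).inv.apply (u_measurable hA)
  rw [← h1]
  congr 1
  ext g
  simp only [Set.mem_preimage, Set.mem_ofPred_eq, u_mul_inv]

/-- element from a matrix -/
def ofMat (A : Mat) (h : Aᵀ * J * A = J) (p : 0 < A 3 3) : O31 := ⟨A, h, p⟩

theorem mt_ofMat (A : Mat) (h p) : mt (ofMat A h p) = A := rfl

theorem O31_ext {g h : O31} (e : mt g = mt h) : g = h := by
  exact G.ext e

/-- lorentz condition by entries -/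
theorem lor_of (A : Mat) (h : ∀ i j, A 0 i * A 0 j + A 1 i * A 1 j + A 2 i * A 2 j - A 3 i * A 3 j
    = J i j) : Aᵀ * J * A = J := by
  ext i j
  rw [lor_entry]; exact h i j

noncomputable def S1m (a : ℝ) : Mat :=
  !![1 - a ^ 2 / 2, -a, 0, a ^ 2 / 2; -a, -1, 0, a; 0, 0, 1, 0; -(a ^ 2 / 2), -a, 0, 1 + a ^ 2 / 2]
noncomputable def S2m (a : ℝ) : Mat :=
  !![1 - a ^ 2 / 2, 0, -a, a ^ 2 / 2; 0, 1, 0, 0; -a, 0, -1, a; -(a ^ 2 / 2), 0, -a, 1 + a ^ 2 / 2]
def R1m : Mat := !![1, 0, 0, 0; 0, -1, 0, 0; 0, 0, 1, 0; 0, 0, 0, 1]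
def R2m : Mat := !![1, 0, 0, 0; 0, 1, 0, 0; 0, 0, -1, 0; 0, 0, 0, 1]
def R0m : Mat := !![-1, 0, 0, 0; 0, 1, 0, 0; 0, 0, 1, 0; 0, 0, 0, 1]
noncomputable def Bjm : Mat := !![-(5 / 4), 0, 0, 3 / 4; 0, 1, 0, 0; 0, 0, 1, 0; -(3 / 4), 0, 0, 5 / 4]
def T01m : Mat := !![0, 1, 0, 0; 1, 0, 0, 0; 0, 0, 1, 0; 0, 0, 0, 1]
def T02m : Mat := !![0, 0, 1, 0; 0, 1, 0, 0; 1, 0, 0, 0; 0, 0, 0, 1]

noncomputable def S1 (a : ℝ) : O31 := ofMat (S1m a)
  (lor_of _ (by intro i j; fin_cases i <;> fin_cases j <;> simp [S1m, J, Matrix.diagonal] <;> ring))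
  (by simp [S1m]; positivity)
noncomputable def S2 (a : ℝ) : O31 := ofMat (S2m a)
  (lor_of _ (by intro i j; fin_cases i <;> fin_cases j <;> simp [S2m, J, Matrix.diagonal] <;> ring))
  (by simp [S2m]; positivity)
def R1 : O31 := ofMat R1m
  (lor_of _ (by intro i j; fin_cases i <;> fin_cases j <;> simp [R1m, J, Matrix.diagonal]))
  (by simp [R1m])
def R2 : O31 := ofMat R2m
  (lor_of _ (by intro i j; fin_cases i <;> fin_cases j <;> simp [R2m, J, Matrix.diagonal]))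
  (by simp [R2m])
def R0 : O31 := ofMat R0m
  (lor_of _ (by intro i j; fin_cases i <;> fin_cases j <;> simp [R0m, J, Matrix.diagonal]))
  (by simp [R0m])
noncomputable def Bj : O31 := ofMat Bjm
  (lor_of _ (by intro i j; fin_cases i <;> fin_cases j <;> simp [Bjm, J, Matrix.diagonal] <;> norm_num))
  (by simp [Bjm])
def T01 : O31 := ofMat T01m
  (lor_of _ (by intro i j; fin_cases i <;> fin_cases j <;> simp [T01m, J, Matrix.diagonal]))
  (by simp [T01m])
def T02 : O31 := ofMat T02m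
  (lor_of _ (by intro i j; fin_cases i <;> fin_cases j <;> simp [T02m, J, Matrix.diagonal]))
  (by simp [T02m])



theorem sq_mem {t : O31} (h : t * t = 1) : t ∈ Inv := Subgroup.subset_closure h

theorem S1_sq (a : ℝ) : S1 a * S1 a = 1 := by
  apply O31_ext
  rw [mt_mul]
  change S1m a * S1m a = 1
  ext i j
  fin_cases i <;> fin_cases j <;> simp [S1m, Matrix.mul_apply, Fin.sum_univ_four] <;> ring
theorem S2_sq (a : ℝ) : S2 a * S2 a = 1 := by
  apply O31_ext
  rw [mt_mul]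
  change S2m a * S2m a = 1
  ext i j
  fin_cases i <;> fin_cases j <;> simp [S2m, Matrix.mul_apply, Fin.sum_univ_four] <;> ring
theorem R1_sq : R1 * R1 = 1 := by
  apply O31_ext
  rw [mt_mul]
  change R1m * R1m = 1
  ext i j
  fin_cases i <;> fin_cases j <;> simp [R1m, Matrix.mul_apply, Fin.sum_univ_four]
theorem R2_sq : R2 * R2 = 1 := by
  apply O31_ext
  rw [mt_mul]
  change R2m * R2m = 1
  ext i j
  fin_cases i <;> fin_cases j <;> simp [R2m, Matrix.mul_apply, Fin.sum_univ_four]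
theorem R0_sq : R0 * R0 = 1 := by
  apply O31_ext
  rw [mt_mul]
  change R0m * R0m = 1
  ext i j
  fin_cases i <;> fin_cases j <;> simp [R0m, Matrix.mul_apply, Fin.sum_univ_four]
theorem Bj_sq : Bj * Bj = 1 := by
  apply O31_ext
  rw [mt_mul]
  change Bjm * Bjm = 1
  ext i j
  fin_cases i <;> fin_cases j <;> simp [Bjm, Matrix.mul_apply, Fin.sum_univ_four] <;> norm_num
theorem T01_sq : T01 * T01 = 1 := by
  apply O31_ext
  rw [mt_mul]
  change T01m * T01m = 1
  ext i j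
  fin_cases i <;> fin_cases j <;> simp [T01m, Matrix.mul_apply, Fin.sum_univ_four]
theorem T02_sq : T02 * T02 = 1 := by
  apply O31_ext
  rw [mt_mul]
  change T02m * T02m = 1
  ext i j
  fin_cases i <;> fin_cases j <;> simp [T02m, Matrix.mul_apply, Fin.sum_univ_four]

/-- the height-like coordinate -/
def vv (x : Fin 4 → ℝ) : ℝ := x 3 - x 0

theorem P_act (a b : ℝ) (x : Fin 4 → ℝ) :
    vv (mt (S1 a * R1 * (S2 b * R2)) *ᵥ x) = vv x ∧
    (mt (S1 a * R1 * (S2 b * R2)) *ᵥ x) 1 = x 1 + a * vv x ∧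
    (mt (S1 a * R1 * (S2 b * R2)) *ᵥ x) 2 = x 2 + b * vv x := by
  have h2 : mt (S2 b * R2) *ᵥ x = ![x 0 + b * x 2 + b ^ 2 / 2 * vv x, x 1, x 2 + b * vv x,
      x 3 + b * x 2 + b ^ 2 / 2 * vv x] := by
    rw [mt_mul, ← Matrix.mulVec_mulVec]
    change S2m b *ᵥ (R2m *ᵥ x) = _
    funext i
    fin_cases i <;> simp [S2m, R2m, Matrix.mulVec, dotProduct, Fin.sum_univ_four, vv] <;> ring
  have h1 : ∀ y : Fin 4 → ℝ, mt (S1 a * R1) *ᵥ y = ![y 0 + a * y 1 + a ^ 2 / 2 * vv y,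
      y 1 + a * vv y, y 2, y 3 + a * y 1 + a ^ 2 / 2 * vv y] := by
    intro y
    rw [mt_mul, ← Matrix.mulVec_mulVec]
    change S1m a *ᵥ (R1m *ᵥ y) = _
    funext i
    fin_cases i <;> simp [S1m, R1m, Matrix.mulVec, dotProduct, Fin.sum_univ_four, vv] <;> ring
  rw [mt_mul, ← Matrix.mulVec_mulVec, h2, h1]
  refine ⟨?_, ?_, ?_⟩ <;> simp [vv] <;> ring

theorem P_mem (a b : ℝ) : S1 a * R1 * (S2 b * R2) ∈ Inv :=
  Inv.mul_mem (Inv.mul_mem (sq_mem (S1_sq a)) (sq_mem R1_sq))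
    (Inv.mul_mem (sq_mem (S2_sq b)) (sq_mem R2_sq))

theorem B_act (x : Fin 4 → ℝ) :
    vv (mt (R0 * Bj) *ᵥ x) = 2 * vv x ∧ (mt (R0 * Bj) *ᵥ x) 1 = x 1 ∧
    (mt (R0 * Bj) *ᵥ x) 2 = x 2 := by
  rw [mt_mul, ← Matrix.mulVec_mulVec]
  change vv (R0m *ᵥ (Bjm *ᵥ x)) = _ ∧ (R0m *ᵥ (Bjm *ᵥ x)) 1 = _ ∧ (R0m *ᵥ (Bjm *ᵥ x)) 2 = _
  refine ⟨?_, ?_, ?_⟩ <;>
    simp [R0m, Bjm, Matrix.mulVec, dotProduct, Fin.sum_univ_four, vv] <;> ring

theorem B_mem : R0 * Bj ∈ Inv := Inv.mul_mem (sq_mem R0_sq) (sq_mem Bj_sq)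

/-- unit squares over slabs -/
def Q (a b : ℝ) (k : ℕ) : Set (Fin 4 → ℝ) :=
  {x | a * vv x ≤ x 1 ∧ x 1 < (a + 1) * vv x ∧ b * vv x ≤ x 2 ∧ x 2 < (b + 1) * vv x ∧
    (1 / 2 : ℝ) ^ (k + 1) < vv x ∧ vv x ≤ (1 / 2 : ℝ) ^ k}

theorem vv_cont : Continuous vv := by unfold vv; fun_prop

theorem Q_meas (a b : ℝ) (k : ℕ) : MeasurableSet (Q a b k) := by
  have hv : Measurable vv := vv_cont.measurable
  have h1 : Measurable (fun x : Fin 4 → ℝ => x 1) := measurable_pi_apply 1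
  have h2 : Measurable (fun x : Fin 4 → ℝ => x 2) := measurable_pi_apply 2
  unfold Q
  refine (measurableSet_le (hv.const_mul a) h1).inter ?_
  refine (measurableSet_lt h1 (hv.const_mul (a + 1))).inter ?_
  refine (measurableSet_le (hv.const_mul b) h2).inter ?_
  refine (measurableSet_lt h2 (hv.const_mul (b + 1))).inter ?_
  exact (measurableSet_lt measurable_const hv).inter (measurableSet_le hv measurable_const)

theorem Q_shift (a b : ℝ) (k : ℕ) : m (u ⁻¹' Q a b k) = m (u ⁻¹' Q 0 0 k) := by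
  rw [← m_u_pull (P_mem (-a) (-b)) (Q_meas 0 0 k)]
  congr 1
  ext g
  obtain ⟨e1, e2, e3⟩ := P_act (-a) (-b) (u g)
  simp only [Set.mem_preimage, Set.mem_ofPred_eq, Q, e1, e2, e3]
  constructor
  · rintro ⟨p1, p2, p3, p4, p5, p6⟩
    refine ⟨by linarith, by linarith, by linarith, by linarith, p5, p6⟩
  · rintro ⟨p1, p2, p3, p4, p5, p6⟩
    refine ⟨by linarith, by linarith, by linarith, by linarith, p5, p6⟩

theorem Q_step (k : ℕ) : m (u ⁻¹' Q 0 0 k) = 4 * m (u ⁻¹' Q 0 0 (k + 1)) := by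
  have hset : u ⁻¹' {x | mt (R0 * Bj) *ᵥ x ∈ Q 0 0 k} =
      ((u ⁻¹' Q 0 0 (k + 1) ∪ u ⁻¹' Q 1 0 (k + 1)) ∪ u ⁻¹' Q 0 1 (k + 1)) ∪
        u ⁻¹' Q 1 1 (k + 1) := by
    ext g
    obtain ⟨e1, e2, e3⟩ := B_act (u g)
    simp only [Set.mem_preimage, Set.mem_ofPred_eq, Q, e1, e2, e3, Set.mem_union]
    have hp : (0 : ℝ) < (1 / 2 : ℝ) ^ (k + 1 + 1) := by positivity
    have hq : (1 / 2 : ℝ) ^ (k + 1) = 2 * (1 / 2 : ℝ) ^ (k + 1 + 1) := by ring
    have hr : (1 / 2 : ℝ) ^ k = 2 * (1 / 2 : ℝ) ^ (k + 1) := by ring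
    constructor
    · rintro ⟨p1, p2, p3, p4, p5, p6⟩
      have q5 : (1 / 2 : ℝ) ^ (k + 1 + 1) < vv (u g) := by linarith
      have q6 : vv (u g) ≤ (1 / 2 : ℝ) ^ (k + 1) := by linarith
      rcases lt_or_ge (u g 1) (vv (u g)) with c1 | c1 <;>
      rcases lt_or_ge (u g 2) (vv (u g)) with c2 | c2
      · left; left; left
        exact ⟨by linarith, by linarith, by linarith, by linarith, q5, q6⟩
      · left; right
        exact ⟨by linarith, by linarith, by linarith, by linarith, q5, q6⟩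
      · left; left; right
        exact ⟨by linarith, by linarith, by linarith, by linarith, q5, q6⟩
      · right
        exact ⟨by linarith, by linarith, by linarith, by linarith, q5, q6⟩
    · rintro (((⟨p1, p2, p3, p4, p5, p6⟩ | ⟨p1, p2, p3, p4, p5, p6⟩) | ⟨p1, p2, p3, p4, p5, p6⟩) |
        ⟨p1, p2, p3, p4, p5, p6⟩) <;>
      refine ⟨by linarith, by linarith, by linarith, by linarith, by linarith, by linarith⟩
  have hm : ∀ a b, MeasurableSet (u ⁻¹' Q a b (k + 1)) := fun a b => u_measurable (Q_meas a b _)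
  have hd : ∀ a b c d : ℝ, (a + 1 ≤ c ∨ c + 1 ≤ a ∨ b + 1 ≤ d ∨ d + 1 ≤ b) →
      Disjoint (u ⁻¹' Q a b (k + 1)) (u ⁻¹' Q c d (k + 1)) := by
    intro a b c d h
    rw [Set.disjoint_left]
    rintro g ⟨p1, p2, p3, p4, p5, p6⟩ ⟨q1, q2, q3, q4, q5, q6⟩
    have hv : 0 < vv (u g) := lt_trans (by positivity) p5
    rcases h with h | h | h | h <;> nlinarith
  rw [← m_u_pull B_mem (Q_meas 0 0 k), hset,
    measure_union _ (hm 1 1), measure_union _ (hm 0 1), measure_union _ (hm 1 0),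
    Q_shift 1 0, Q_shift 0 1, Q_shift 1 1]
  · ring
  · exact hd 0 0 1 0 (by norm_num)
  · rw [Set.disjoint_union_left]
    exact ⟨hd 0 0 0 1 (by norm_num), hd 1 0 0 1 (by norm_num)⟩
  · rw [Set.disjoint_union_left, Set.disjoint_union_left]
    exact ⟨⟨hd 0 0 1 1 (by norm_num), hd 1 0 1 1 (by norm_num)⟩, hd 0 1 1 1 (by norm_num)⟩



theorem M1 : StM1 := by
  intro σ h
  exact ⟨measurable_mul_const σ, RInv.of_sq h⟩

theorem compact_small (R : ℝ) : IsCompact {g : G | mt g 3 3 ≤ R} := by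
  have hc : IsCompact {A : Mat | ∀ i j, A i j ∈ Set.Icc (-(R + 1)) (R + 1)} := by
    have : {A : Mat | ∀ i j, A i j ∈ Set.Icc (-(R + 1)) (R + 1)} =
        Set.pi Set.univ (fun _ : Fin 4 => Set.pi Set.univ
          (fun _ : Fin 4 => Set.Icc (-(R + 1)) (R + 1))) := by
      ext A
      exact ⟨fun h i _ j _ => h i j, fun h i j => h i trivial j trivial⟩
    rw [this]
    exact isCompact_univ_pi (fun _ => isCompact_univ_pi (fun _ => isCompact_Icc))
  have hp := G.isClosedEmbedding.isCompact_preimage hc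
  have hcl : IsClosed {g : G | mt g 3 3 ≤ R} := by
    have : Continuous (fun g : G => mt g 3 3) := (continuous_apply_apply 3 3).comp G.continuous_mat
    exact isClosed_le this continuous_const
  refine hp.of_isClosed_subset hcl ?_
  intro g hg
  simp only [Set.mem_ofPred_eq] at hg
  simp only [Set.mem_preimage, Set.mem_ofPred_eq, Set.mem_Icc]
  intro i j
  rw [← abs_le]
  have hpos : 0 < mt g 3 3 := g.2.2
  have hrow : ∀ j, mt g 3 j ^ 2 ≤ R ^ 2 := by
    intro j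
    have a : mt g 3 0 * mt g 3 0 + mt g 3 1 * mt g 3 1 + mt g 3 2 * mt g 3 2 -
        mt g 3 3 * mt g 3 3 = -1 := by
      rw [← lor_entry' (mt g) 3 3, show mt g * J * (mt g)ᵀ = J from lor_transpose g.2.1]; simp [J]
    have hr : mt g 3 3 ^ 2 ≤ R ^ 2 := by nlinarith
    fin_cases j <;> simp <;>
      nlinarith [sq_nonneg (mt g 3 0), sq_nonneg (mt g 3 1), sq_nonneg (mt g 3 2)]
  have hR : 0 < R := lt_of_lt_of_le hpos hg
  have hcol : mt g i j ^ 2 ≤ (R + 1) ^ 2 := by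
    have a : mt g 0 j * mt g 0 j + mt g 1 j * mt g 1 j + mt g 2 j * mt g 2 j -
        mt g 3 j * mt g 3 j ≤ 1 := by
      rw [← lor_entry (mt g) j j, show (mt g)ᵀ * J * mt g = J from g.2.1]
      fin_cases j <;> simp [J]
    have hrj := hrow j
    have : mt g i j ^ 2 ≤ 1 + R ^ 2 := by
      fin_cases i <;> simp <;>
        nlinarith [sq_nonneg (mt g 0 j), sq_nonneg (mt g 1 j), sq_nonneg (mt g 2 j)]
    nlinarith
  exact abs_le_of_sq_le_sq hcol (by linarith)

theorem Q0_fin : m (u ⁻¹' Q 0 0 0) < ⊤ := by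
  refine lt_of_le_of_lt (measure_mono ?_) (compact_small 4).measure_lt_top
  intro g hg
  obtain ⟨p1, p2, p3, p4, p5, p6⟩ := hg
  have h := u_hyp g
  have h3 := u_pos g
  have e : u g 3 = mt g 3 3 := by rw [u_eq]; rfl
  simp only [Set.mem_ofPred_eq, ← e]
  unfold vv at *
  norm_num at p5 p6 p1 p3 p2 p4
  have q1 : u g 1 ^ 2 ≤ 1 := by nlinarith
  have q2 : u g 2 ^ 2 ≤ 1 := by nlinarith
  nlinarith

theorem Q_geom (k : ℕ) : (4 : ENNReal) ^ k * m (u ⁻¹' Q 0 0 k) = m (u ⁻¹' Q 0 0 0) := by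
  induction k with
  | zero => simp
  | succ k ih => rw [← ih, Q_step k]; ring

theorem Q_val (k : ℕ) : m (u ⁻¹' Q 0 0 k) = ((4 : ENNReal)⁻¹) ^ k * m (u ⁻¹' Q 0 0 0) := by
  rw [← Q_geom k, ← mul_assoc, ← mul_pow, ENNReal.inv_mul_cancel (by norm_num) (by norm_num),
    one_pow, one_mul]

theorem Q_sum : ∑' k, m (u ⁻¹' Q 0 0 k) < ⊤ := by
  rw [tsum_congr Q_val, ENNReal.tsum_mul_right]
  refine ENNReal.mul_lt_top ?_ Q0_fin
  rw [ENNReal.tsum_geometric]
  rw [lt_top_iff_ne_top]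
  apply ENNReal.inv_ne_top.mpr
  rw [Ne, tsub_eq_zero_iff_le, not_le]
  exact ENNReal.inv_lt_one.mpr (by norm_num)

/-- cusp region in direction `0`, sign `+` -/
def C0 : Set (Fin 4 → ℝ) := {x | |x 1| + |x 2| ≤ vv x ∧ vv x ≤ 1}

theorem C0_meas : MeasurableSet C0 := by
  have hv : Measurable vv := vv_cont.measurable
  have h : Measurable (fun x : Fin 4 → ℝ => |x 1| + |x 2|) := by fun_prop
  exact (measurableSet_le h hv).inter (measurableSet_le hv measurable_const)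

theorem vv_pos (g : G) : 0 < vv (u g) := by
  have h := u_hyp g
  have h3 := u_pos g
  unfold vv
  nlinarith [sq_nonneg (u g 1), sq_nonneg (u g 2)]

theorem C0_sub : u ⁻¹' C0 ⊆ ⋃ (a : Fin 3) (b : Fin 3) (k : ℕ),
    u ⁻¹' Q ((a : ℝ) - 1) ((b : ℝ) - 1) k := by
  intro g hg
  obtain ⟨h1, h2⟩ := hg
  have hv := vv_pos g
  obtain ⟨k, hk1, hk2⟩ : ∃ k : ℕ, (1 / 2 : ℝ) ^ (k + 1) < vv (u g) ∧ vv (u g) ≤ (1 / 2 : ℝ) ^ k :=
    exists_nat_pow_near_of_lt_one hv h2 (by norm_num) (by norm_num)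
  have hx : ∀ t : ℝ, |t| ≤ vv (u g) → ∃ a : Fin 3, ((a : ℝ) - 1) * vv (u g) ≤ t ∧
      t < ((a : ℝ) - 1 + 1) * vv (u g) := by
    intro t ht
    obtain ⟨h3, h4⟩ := abs_le.mp ht
    rcases lt_or_ge t 0 with c | c
    · exact ⟨0, by simp; linarith, by simpa using c⟩
    · rcases lt_or_ge t (vv (u g)) with d | d
      · exact ⟨1, by simpa using c, by simpa using d⟩
      · refine ⟨2, ?_, ?_⟩
        · norm_num; linarith
        · norm_num; linarith
  obtain ⟨a, ha1, ha2⟩ := hx (u g 1) (by linarith [abs_nonneg (u g 2)])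
  obtain ⟨b, hb1, hb2⟩ := hx (u g 2) (by linarith [abs_nonneg (u g 1)])
  simp only [Set.mem_iUnion]
  exact ⟨a, b, k, ha1, ha2, hb1, hb2, hk1, hk2⟩

theorem C0_fin : m (u ⁻¹' C0) < ⊤ := by
  refine lt_of_le_of_lt (measure_mono C0_sub) ?_
  refine lt_of_le_of_lt (measure_iUnion_le _) ?_
  rw [tsum_fintype]
  refine ENNReal.sum_lt_top.mpr ?_
  intro a _
  refine lt_of_le_of_lt (measure_iUnion_le _) ?_
  rw [tsum_fintype]
  refine ENNReal.sum_lt_top.mpr ?_
  intro b _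
  refine lt_of_le_of_lt (measure_iUnion_le _) ?_
  simp_rw [Q_shift]
  exact Q_sum

theorem pull_fin {t : G} (h : t ∈ Inv) {A : Set (Fin 4 → ℝ)}
    (hA : ∀ x ∈ A, mt t *ᵥ x ∈ C0) : m (u ⁻¹' A) < ⊤ := by
  refine lt_of_le_of_lt (measure_mono (?_ : u ⁻¹' A ⊆ u ⁻¹' {x | mt t *ᵥ x ∈ C0})) ?_
  · intro g hg
    exact hA _ hg
  · rw [m_u_pull h C0_meas]
    exact C0_fin

/-- cusp region in direction `i`, sign `e` -/
def Ci (i : Fin 3) (e : ℝ) : Set (Fin 4 → ℝ) :=
  {x | (∑ j : Fin 3, |x j.castSucc|) - |x i.castSucc| ≤ x 3 - e * x i.castSucc ∧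
    x 3 - e * x i.castSucc ≤ 1}

theorem T01_mem : T01 ∈ Inv := sq_mem T01_sq
theorem T02_mem : T02 ∈ Inv := sq_mem T02_sq
theorem R0_mem : R0 ∈ Inv := sq_mem R0_sq

theorem R0_act (x : Fin 4 → ℝ) : mt R0 *ᵥ x = ![-x 0, x 1, x 2, x 3] := by
  change R0m *ᵥ x = _
  funext i
  fin_cases i <;> simp [R0m, Matrix.mulVec, dotProduct, Fin.sum_univ_four]
theorem T01_act (x : Fin 4 → ℝ) : mt T01 *ᵥ x = ![x 1, x 0, x 2, x 3] := by
  change T01m *ᵥ x = _
  funext i
  fin_cases i <;> simp [T01m, Matrix.mulVec, dotProduct, Fin.sum_univ_four]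
theorem T02_act (x : Fin 4 → ℝ) : mt T02 *ᵥ x = ![x 2, x 1, x 0, x 3] := by
  change T02m *ᵥ x = _
  funext i
  fin_cases i <;> simp [T02m, Matrix.mulVec, dotProduct, Fin.sum_univ_four]

theorem Ci_fin (i : Fin 3) (e : ℝ) (he : e = 1 ∨ e = -1) : m (u ⁻¹' Ci i e) < ⊤ := by
  fin_cases i <;> rcases he with rfl | rfl
  · refine pull_fin (t := 1) (Inv.one_mem) ?_
    rintro x ⟨h1, h2⟩
    have : mt (1 : G) *ᵥ x = x := by change (1 : Mat) *ᵥ x = x; simp
    rw [this]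
    simp [Fin.sum_univ_three, C0, vv] at *
    constructor <;> linarith
  · refine pull_fin R0_mem ?_
    rintro x ⟨h1, h2⟩
    rw [R0_act]
    simp [Fin.sum_univ_three, C0, vv] at *
    constructor <;> linarith
  · refine pull_fin T01_mem ?_
    rintro x ⟨h1, h2⟩
    rw [T01_act]
    simp [Fin.sum_univ_three, C0, vv] at *
    constructor <;> linarith
  · refine pull_fin (Inv.mul_mem R0_mem T01_mem) ?_
    rintro x ⟨h1, h2⟩
    rw [mt_mul, ← Matrix.mulVec_mulVec, T01_act, R0_act]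
    simp [Fin.sum_univ_three, C0, vv] at *
    constructor <;> linarith
  · refine pull_fin T02_mem ?_
    rintro x ⟨h1, h2⟩
    rw [T02_act]
    simp [Fin.sum_univ_three, C0, vv] at *
    constructor <;> linarith
  · refine pull_fin (Inv.mul_mem R0_mem T02_mem) ?_
    rintro x ⟨h1, h2⟩
    rw [mt_mul, ← Matrix.mulVec_mulVec, T02_act, R0_act]
    simp [Fin.sum_univ_three, C0, vv] at *
    constructor <;> linarith

theorem u_e0 (g : G) : (g⁻¹).mat *ᵥ e0 = u g := by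
  funext i
  unfold u mt
  simp [Matrix.mulVec, dotProduct, Fin.sum_univ_four, e0]

theorem M2 : StM2 := by
  unfold StM2
  change m _ < ⊤
  have hsub : {g : G | (g⁻¹).mat *ᵥ e0 ∈ Cusp} ⊆ ⋃ i : Fin 3,
      (u ⁻¹' Ci i 1 ∪ u ⁻¹' Ci i (-1)) := by
    rintro g ⟨_, i, e, he, h1, h2⟩
    rw [u_e0] at h1 h2
    simp only [Set.mem_iUnion]
    refine ⟨i, ?_⟩
    rcases he with rfl | rfl
    · left; exact ⟨h1, h2⟩
    · right; exact ⟨h1, h2⟩
  refine lt_of_le_of_lt (measure_mono hsub) ?_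
  refine lt_of_le_of_lt (measure_iUnion_le _) ?_
  rw [tsum_fintype]
  refine ENNReal.sum_lt_top.mpr ?_
  intro i _
  exact lt_of_le_of_lt (measure_union_le _ _)
    (ENNReal.add_lt_top.mpr ⟨Ci_fin i 1 (Or.inl rfl), Ci_fin i (-1) (Or.inr rfl)⟩)

end Pool.Agent.Helper447.ATM
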