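import Mathlib

/-! Strict Borel fundamental domains (MP_ff0320_al). -/

set_option autoImplicit false

open MeasureTheory

namespace Pool.Agent.Helper825.AT

/-- a free action of a countable group with a proper function has a strict Borel fundamental domain -/
theorem strict_fd {Γ G : Type} [Group Γ] [Countable Γ] [MeasurableSpace G] [StandardBorelSpace G]
    [MulAction Γ G] (hm : ∀ γ : Γ, Measurable (fun g : G => γ • g))
    (hfree : ∀ (γ : Γ) (g : G), γ • g = g → γ = 1) (N : G → ℝ) (hN : Measurable N)
    (hfin : ∀ (g : G) (R : ℝ), {γ : Γ | N (γ • g) ≤ R}.Finite) :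
    ∃ F : Set G, MeasurableSet F ∧ ∀ g, ∃! γ : Γ, γ • g ∈ F := by
  classical
  obtain ⟨ι, hι⟩ := exists_measurableEmbedding_real G
  let lt : G → G → Prop := fun g h => N g < N h ∨ (N g = N h ∧ ι g < ι h)
  refine ⟨⋂ γ : Γ, {g | γ = 1 ∨ lt g (γ • g)}, ?_, ?_⟩
  · refine MeasurableSet.iInter fun γ => ?_
    by_cases h1 : γ = 1
    · simp [h1]
    · simp only [h1, false_or, lt]
      have e1 : MeasurableSet {g : G | N g < N (γ • g)} :=
        measurableSet_lt hN (hN.comp (hm γ))
      have e2 : MeasurableSet {g : G | N g = N (γ • g)} :=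
        measurableSet_eq_fun hN (hN.comp (hm γ))
      have e3 : MeasurableSet {g : G | ι g < ι (γ • g)} :=
        measurableSet_lt hι.measurable (hι.measurable.comp (hm γ))
      exact e1.union (e2.inter e3)
  · intro g
    have hfin' : {γ : Γ | N (γ • g) ≤ N g}.Finite := hfin g (N g)
    have hne : (hfin'.toFinset).Nonempty := ⟨1, by simp⟩
    obtain ⟨γ₁, hγ₁, hmin1⟩ := Finset.exists_min_image hfin'.toFinset (fun γ => N (γ • g)) hne
    have hmin1' : ∀ γ : Γ, N (γ₁ • g) ≤ N (γ • g) := by
      intro γ
      by_cases h : N (γ • g) ≤ N g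
      · exact hmin1 γ (by simpa using h)
      · have : N (γ₁ • g) ≤ N g := by simpa using hγ₁
        linarith
    let M := (hfin'.toFinset).filter (fun γ => N (γ • g) = N (γ₁ • g))
    have hMne : M.Nonempty := ⟨γ₁, Finset.mem_filter.2 ⟨hγ₁, rfl⟩⟩
    obtain ⟨γ₀, hγ₀, hmin0⟩ := Finset.exists_min_image M (fun γ => ι (γ • g)) hMne
    have hγ₀N : N (γ₀ • g) = N (γ₁ • g) := (Finset.mem_filter.1 hγ₀).2
    have hlt : ∀ γ : Γ, γ ≠ γ₀ → lt (γ₀ • g) (γ • g) := by
      intro γ hγ
      rcases (hmin1' γ).lt_or_eq with h | h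
      · left; rw [hγ₀N]; exact h
      · right
        refine ⟨hγ₀N.trans h, ?_⟩
        have hmem : γ ∈ M := by
          simp only [M, Finset.mem_filter]
          refine ⟨?_, h.symm⟩
          have h1 : N (γ₁ • g) ≤ N g := by simpa using hγ₁
          rw [Set.Finite.mem_toFinset]
          show N (γ • g) ≤ N g
          linarith
        refine lt_of_le_of_ne (hmin0 γ hmem) ?_
        intro heq
        apply hγ
        have h3 := hι.injective heq
        have h4 : (γ₀⁻¹ * γ) • g = g := by rw [mul_smul, ← h3, inv_smul_smul]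
        have h5 := hfree _ _ h4
        rw [inv_mul_eq_one] at h5
        exact h5.symm
    refine ⟨γ₀, ?_, ?_⟩
    · show γ₀ • g ∈ _
      rw [Set.mem_iInter]
      intro γ
      by_cases h1 : γ = 1
      · exact Or.inl h1
      · right
        rw [smul_smul]
        exact hlt _ (by
          intro h
          apply h1
          exact mul_eq_right.1 h)
    · intro γ hγ
      by_contra hne2
      have h1 : lt (γ₀ • g) (γ • g) := hlt γ hne2
      rw [Set.mem_iInter] at hγ
      have h2 := hγ (γ₀ * γ⁻¹)
      rcases h2 with h2 | h2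
      · exact hne2 (mul_inv_eq_one.1 h2).symm
      · rw [smul_smul, inv_mul_cancel_right] at h2
        rcases h1 with h1 | h1 <;> rcases h2 with h2 | h2
        · linarith
        · linarith [h2.1]
        · linarith [h1.1]
        · linarith [h1.2, h2.2]

end Pool.Agent.Helper825.AT
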