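import Mathlib
import Pool.Agent.H171AT.AT_Geo2
import Pool.Agent.H171AT.Helper825_AT_FD

/-! Module F1 of S02495 (MP_ff0320_al): strict Borel fundamental domains in `O⁺(3,1)`. -/

set_option autoImplicit false

open MeasureTheory Matrix Topology

namespace Pool.Agent.Helper825.AT1

open Pool.Agent.AT

/-- the square of the Frobenius norm -/
def fro (A : Mat) : ℝ := ∑ i, ∑ j, (A i j) ^ 2

theorem abs_le_of_fro {A : Mat} {R : ℝ} (h : fro A ≤ R) (i j : Fin 4) : |A i j| ≤ Real.sqrt R := by
  apply Real.abs_le_sqrt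
  refine le_trans ?_ h
  unfold fro
  calc (A i j) ^ 2 ≤ ∑ j, (A i j) ^ 2 :=
        Finset.single_le_sum (f := fun j => (A i j) ^ 2) (fun _ _ => sq_nonneg _) (Finset.mem_univ j)
    _ ≤ _ := Finset.single_le_sum (f := fun i => ∑ j, (A i j) ^ 2)
        (fun _ _ => Finset.sum_nonneg fun _ _ => sq_nonneg _) (Finset.mem_univ i)

theorem entry_mul_le (A B : Mat) (a b : ℝ) (hA : ∀ i j, |A i j| ≤ a) (hB : ∀ i j, |B i j| ≤ b)
    (i j : Fin 4) : |(A * B) i j| ≤ 4 * (a * b) := by
  rw [Matrix.mul_apply]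
  refine (Finset.abs_sum_le_sum_abs _ _).trans ?_
  have ha : 0 ≤ a := (abs_nonneg _).trans (hA 0 0)
  calc ∑ k, |A i k * B k j| ≤ ∑ _k : Fin 4, a * b := Finset.sum_le_sum fun k _ => by
        rw [abs_mul]
        exact mul_le_mul (hA i k) (hB k j) (abs_nonneg _) ha
    _ = 4 * (a * b) := by simp

theorem continuous_fro : Continuous fro := by
  unfold fro
  fun_prop

/-- MODULE F1 -/
theorem stF1 : StF1 := by
  intro Γ _ a ha hfb
  have hcount : Countable Γ := by
    have h1 : (Set.univ : Set Γ) = ⋃ n : ℕ, {γ : Γ | ∀ i j, |(a γ).mat i j| ≤ (n : ℝ)} := by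
      ext γ
      simp only [Set.mem_univ, Set.mem_iUnion, true_iff]
      obtain ⟨n, hn⟩ := exists_nat_ge (Real.sqrt (fro (a γ).mat))
      exact ⟨n, fun i j => (abs_le_of_fro le_rfl i j).trans hn⟩
    rw [← Set.countable_univ_iff, h1]
    exact Set.countable_iUnion fun n => (hfb n).countable
  letI : MulAction Γ G := MulAction.compHom G a
  have hsm : ∀ (γ : Γ) (g : G), γ • g = a γ * g := fun _ _ => rfl
  obtain ⟨D, hD, hD2⟩ := Pool.Agent.Helper825.AT.strict_fd (Γ := Γ) (G := G)
    (fun γ => by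
      show Measurable (fun g : G => a γ * g)
      exact (continuous_const.mul continuous_id).measurable)
    (fun γ g h => by
      rw [hsm] at h
      have h2 : a γ = 1 := mul_eq_right.1 h
      exact ha (h2.trans (map_one a).symm))
    (fun g => fro g.mat) ((continuous_fro.comp G.continuous_mat).measurable)
    (fun g R => by
      have hg : ∀ i j, |(g⁻¹).mat i j| ≤ Real.sqrt (fro (g⁻¹).mat) := fun i j =>
        abs_le_of_fro le_rfl i j
      refine (hfb (4 * (Real.sqrt R * Real.sqrt (fro (g⁻¹).mat)))).subset ?_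
      intro γ hγ i j
      have h3 : (a γ).mat = (a γ * g).mat * (g⁻¹).mat := by
        rw [← G.mat_mul, mul_inv_cancel_right]
      rw [h3]
      exact entry_mul_le _ _ _ _ (fun i j => abs_le_of_fro hγ i j) hg i j)
  exact ⟨D, hD, hD2⟩

end Pool.Agent.Helper825.AT1
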